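import Mathlib

set_option autoImplicit false

/-!
MP_d4e2f9_lc (TC): the critical density.
-/

namespace Pool.Agent.TH669.TC

open Finset Filter Topology

open Classical in
/-- a density at which a monotone function of the signs of continuous functions crosses -/
theorem crossing {ι : Type} [Fintype ι] (Psi : (ι → Bool) → Bool)
    (hPsi : ∀ a b : ι → Bool, (∀ i, a i = true → b i = true) → Psi a = true → Psi b = true)
    (h : ι → ℝ → ℝ) (hc : ∀ i, Continuous (h i))
    (h0 : Psi (fun i => decide (0 ≤ h i 0)) = false)
    (h1 : Psi (fun i => decide (0 < h i 1)) = true) :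
    ∃ p : ℝ, 0 < p ∧ p < 1 ∧ Psi (fun i => decide (0 < h i p)) = false ∧
      Psi (fun i => decide (0 ≤ h i p)) = true := by
  set cp : ℝ → Bool := fun p => Psi (fun i => decide (0 ≤ h i p)) with hcp
  set cm : ℝ → Bool := fun p => Psi (fun i => decide (0 < h i p)) with hcm
  have hle : ∀ p, cm p = true → cp p = true := by
    intro p
    refine hPsi _ _ fun i hi => ?_
    rw [decide_eq_true_eq] at hi ⊢
    exact hi.le
  have hopen : IsOpen {p | cp p = false} := by
    rw [isOpen_iff_mem_nhds]
    intro p0 hp0
    have hev : ∀ᶠ p in 𝓝 p0, ∀ i, h i p0 < 0 → h i p < 0 := by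
      rw [Filter.eventually_all]
      intro i
      by_cases hi : h i p0 < 0
      · filter_upwards [(hc i).continuousAt.eventually_lt_const hi] with p hp _
        exact hp
      · exact Filter.Eventually.of_forall fun p hp => absurd hp hi
    filter_upwards [hev] with p hp
    show cp p = false
    by_contra hcon
    have hcon' : cp p = true := by simpa using hcon
    have : cp p0 = true := by
      refine hPsi _ _ (fun i hi => ?_) hcon'
      rw [decide_eq_true_eq] at hi ⊢
      by_contra h2
      push Not at h2
      exact absurd (hp i h2) (not_lt.2 hi)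
    rw [show cp p0 = false from hp0] at this
    exact absurd this (by simp)
  have hclosed : IsClosed (Set.Icc (0 : ℝ) 1 ∩ {p | cp p = true}) := by
    refine isClosed_Icc.inter ?_
    have : {p | cp p = true} = {p | cp p = false}ᶜ := by
      ext p
      simp
    rw [this]
    exact hopen.isClosed_compl
  have hcomp : IsCompact (Set.Icc (0 : ℝ) 1 ∩ {p | cp p = true}) :=
    isCompact_Icc.of_isClosed_subset hclosed Set.inter_subset_left
  obtain ⟨p, hp, hmin⟩ := hcomp.exists_isLeast ⟨1, ⟨zero_le_one, le_rfl⟩, hle 1 h1⟩
  have hp0 : 0 < p := by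
    rcases hp.1.1.lt_or_eq with h | h
    · exact h
    · exfalso
      have h2 : cp p = true := hp.2
      rw [← h] at h2
      rw [show cp 0 = false from h0] at h2
      exact absurd h2 (by simp)
  have hcmp : cm p = false := by
    by_contra hcon
    have hcon' : cm p = true := by simpa using hcon
    have hev : ∀ᶠ r in 𝓝 p, ∀ i, 0 < h i p → 0 < h i r := by
      rw [Filter.eventually_all]
      intro i
      by_cases hi : 0 < h i p
      · filter_upwards [(hc i).continuousAt.eventually_const_lt hi] with r hr _
        exact hr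
      · exact Filter.Eventually.of_forall fun r hr => absurd hr hi
    have hev2 : ∀ᶠ r in 𝓝[<] p, (∀ i, 0 < h i p → 0 < h i r) ∧ r ∈ Set.Ioo 0 p :=
      (hev.filter_mono nhdsWithin_le_nhds).and (Ioo_mem_nhdsLT hp0)
    obtain ⟨r, hr, hr2⟩ := hev2.exists
    have h3 : cp r = true := by
      refine hPsi _ _ (fun i hi => ?_) hcon'
      rw [decide_eq_true_eq] at hi ⊢
      exact (hr i hi).le
    have h4 := hmin ⟨⟨hr2.1.le, hr2.2.le.trans hp.1.2⟩, h3⟩
    exact absurd hr2.2 (not_lt.2 h4)
  refine ⟨p, hp0, ?_, hcmp, hp.2⟩
  rcases hp.1.2.lt_or_eq with h | h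
  · exact h
  · exfalso
    rw [h] at hcmp
    rw [hcm] at hcmp
    simp only at hcmp
    rw [h1] at hcmp
    exact absurd hcmp (by simp)

end Pool.Agent.TH669.TC
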