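import Mathlib

set_option autoImplicit false

/-!
MP_d4e2f9_lc (TC): the product measure with density `p` on the cube, and decision trees.
-/

namespace Pool.Agent.TH669.TC

open Finset

variable {n : ℕ}

/-- weight of `x` when every coordinate is `true` with probability `p` -/
noncomputable def mu (p : ℝ) (x : Fin n → Bool) : ℝ := ∏ i, if x i = true then p else 1 - p

/-- expectation -/
noncomputable def E (p : ℝ) (F : (Fin n → Bool) → ℝ) : ℝ := ∑ x, mu p x * F x

theorem mu_nonneg {p : ℝ} (h0 : 0 ≤ p) (h1 : p ≤ 1) (x : Fin n → Bool) : 0 ≤ mu p x := by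
  unfold mu
  refine prod_nonneg fun i _ => ?_
  split_ifs <;> linarith

/-- expectation of a product of functions of the coordinates -/
theorem E_prod (p : ℝ) (c : Fin n → Bool → ℝ) :
    E p (fun x => ∏ i, c i (x i)) = ∏ i, (p * c i true + (1 - p) * c i false) := by
  unfold E mu
  have h := (Finset.prod_univ_sum (fun _ : Fin n => (Finset.univ : Finset Bool))
    (fun i b => (if b = true then p else 1 - p) * c i b))
  rw [Fintype.piFinset_univ] at h
  simp only [← Finset.prod_mul_distrib]
  rw [← h]
  refine prod_congr rfl fun i _ => ?_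
  simp

theorem sum_mu (p : ℝ) : ∑ x : Fin n → Bool, mu p x = 1 := by
  have h := E_prod (n := n) p (fun _ _ => 1)
  unfold E at h
  simpa using h

theorem E_mono {p : ℝ} (h0 : 0 ≤ p) (h1 : p ≤ 1) {F G : (Fin n → Bool) → ℝ}
    (h : ∀ x, F x ≤ G x) : E p F ≤ E p G :=
  sum_le_sum fun x _ => mul_le_mul_of_nonneg_left (h x) (mu_nonneg h0 h1 x)

theorem E_add (p : ℝ) (F G : (Fin n → Bool) → ℝ) :
    E p (fun x => F x + G x) = E p F + E p G := by
  unfold E
  rw [← sum_add_distrib]
  exact sum_congr rfl fun x _ => mul_add _ _ _

theorem E_smul (p c : ℝ) (F : (Fin n → Bool) → ℝ) : E p (fun x => c * F x) = c * E p F := by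
  unfold E
  rw [mul_sum]
  exact sum_congr rfl fun x _ => by ring

theorem E_sum {ι : Type} (p : ℝ) (s : Finset ι) (F : ι → (Fin n → Bool) → ℝ) :
    E p (fun x => ∑ i ∈ s, F i x) = ∑ i ∈ s, E p (F i) := by
  unfold E
  rw [sum_comm]
  exact sum_congr rfl fun x _ => mul_sum _ _ _

theorem E_const (p c : ℝ) : E (n := n) p (fun _ => c) = c := by
  unfold E
  rw [← sum_mul, sum_mu, one_mul]

theorem E_nonneg {p : ℝ} (h0 : 0 ≤ p) (h1 : p ≤ 1) {F : (Fin n → Bool) → ℝ}
    (h : ∀ x, 0 ≤ F x) : 0 ≤ E p F :=
  sum_nonneg fun x _ => mul_nonneg (mu_nonneg h0 h1 x) (h x)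

theorem mu_perm (p : ℝ) (σ : Equiv.Perm (Fin n)) (x : Fin n → Bool) :
    mu p (x ∘ σ) = mu p x := by
  unfold mu
  exact Equiv.prod_comp σ (fun i => if x i = true then p else 1 - p)

theorem E_perm (p : ℝ) (σ : Equiv.Perm (Fin n)) (F : (Fin n → Bool) → ℝ) :
    E p (fun x => F (x ∘ σ)) = E p F := by
  unfold E
  refine Fintype.sum_equiv (Equiv.arrowCongr σ.symm (Equiv.refl Bool)) _ _ fun x => ?_
  have : (Equiv.arrowCongr σ.symm (Equiv.refl Bool)) x = x ∘ σ := by
    funext i
    simp [Equiv.arrowCongr]
  rw [this, mu_perm]

/-- complementation of an input -/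
def ng (x : Fin n → Bool) : Fin n → Bool := fun i => !x i

theorem ng_ng (x : Fin n → Bool) : ng (ng x) = x := by
  funext i
  simp [ng]

theorem mu_ng (p : ℝ) (x : Fin n → Bool) : mu p (ng x) = mu (1 - p) x := by
  unfold mu
  refine prod_congr rfl fun i _ => ?_
  cases h : x i <;> simp [ng, h]

theorem E_ng (p : ℝ) (F : (Fin n → Bool) → ℝ) : E p (fun x => F (ng x)) = E (1 - p) F := by
  unfold E
  refine Fintype.sum_bijective ng (Function.bijective_iff_has_inverse.2 ⟨ng, ng_ng, ng_ng⟩) _ _
    fun x => ?_
  have := mu_ng (1 - p) x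
  rw [sub_sub_cancel] at this
  rw [this]

theorem E_continuous (F : (Fin n → Bool) → ℝ) : Continuous (fun p => E p F) := by
  unfold E mu
  refine continuous_finsetSum _ fun x _ => Continuous.mul ?_ continuous_const
  refine continuous_finsetProd _ fun i _ => ?_
  split_ifs
  · exact continuous_id
  · exact continuous_const.sub continuous_id

theorem E_zero (F : (Fin n → Bool) → ℝ) : E 0 F = F (fun _ => false) := by
  unfold E
  rw [sum_eq_single (fun _ => false)]
  · simp [mu]
  · intro x _ hx
    have : ∃ i, x i = true := by
      by_contra h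
      push Not at h
      exact hx (funext fun i => by simpa using h i)
    obtain ⟨i, hi⟩ := this
    have : mu (0 : ℝ) x = 0 := prod_eq_zero (mem_univ i) (by simp [hi])
    rw [this, zero_mul]
  · intro h
    exact absurd (mem_univ _) h

theorem E_one (F : (Fin n → Bool) → ℝ) : E 1 F = F (fun _ => true) := by
  have h := E_ng (n := n) 0 F
  rw [sub_zero] at h
  rw [← h, E_zero]
  congr 1

/-- a function which does not depend on coordinate `i` -/
theorem E_split {p : ℝ} (i : Fin n) (F : (Fin n → Bool) → ℝ)
    (hF : ∀ x b, F (Function.update x i b) = F x) :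
    E p (fun x => if x i = true then F x else 0) = p * E p F := by
  -- flip coordinate `i`
  have hflip : ∀ x : Fin n → Bool, x i = true →
      (1 - p) * mu p x = p * mu p (Function.update x i false) := by
    intro x hx
    unfold mu
    rw [← mul_prod_erase univ _ (mem_univ i), ← mul_prod_erase univ _ (mem_univ i)]
    have : ∏ j ∈ univ.erase i, (if (Function.update x i false) j = true then p else 1 - p) =
        ∏ j ∈ univ.erase i, (if x j = true then p else 1 - p) := by
      refine prod_congr rfl fun j hj => ?_
      rw [Function.update_of_ne (ne_of_mem_erase hj)]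
    rw [this]
    simp [hx]
    ring
  have h1 : (1 - p) * E p (fun x => if x i = true then F x else 0) =
      p * E p (fun x => if x i = true then 0 else F x) := by
    unfold E
    rw [mul_sum, mul_sum]
    have e1 : ∑ x : Fin n → Bool, (1 - p) * (mu p x * (if x i = true then F x else 0)) =
        ∑ x ∈ univ.filter (fun x : Fin n → Bool => x i = true), (1 - p) * mu p x * F x := by
      rw [sum_filter]
      refine sum_congr rfl fun x _ => ?_
      split_ifs
      · ring
      · ring
    have e2 : ∑ x : Fin n → Bool, p * (mu p x * (if x i = true then 0 else F x)) =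
        ∑ x ∈ univ.filter (fun x : Fin n → Bool => ¬ x i = true), p * mu p x * F x := by
      rw [sum_filter]
      refine sum_congr rfl fun x _ => ?_
      split_ifs
      · ring
      · ring
    rw [e1, e2]
    refine sum_bij' (fun x _ => Function.update x i false) (fun x _ => Function.update x i true)
      ?_ ?_ ?_ ?_ ?_
    · intro x _
      simp
    · intro x _
      simp
    · intro x hx
      simp only [mem_filter, mem_univ, true_and] at hx
      simp [← hx]
    · intro x hx
      simp only [mem_filter, mem_univ, true_and, Bool.not_eq_true] at hx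
      simp [← hx]
    · intro x hx
      simp only [mem_filter, mem_univ, true_and] at hx
      rw [hflip x hx, hF]
  have h2 : E p (fun x => if x i = true then F x else 0) +
      E p (fun x => if x i = true then 0 else F x) = E p F := by
    rw [← E_add]
    congr 1
    funext x
    split_ifs <;> simp
  linear_combination p * h2 + h1

theorem E_split' {p : ℝ} (i : Fin n) (F : (Fin n → Bool) → ℝ)
    (hF : ∀ x b, F (Function.update x i b) = F x) :
    E p (fun x => if x i = true then 0 else F x) = (1 - p) * E p F := by
  have h1 := E_split (p := p) i F hF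
  have h2 : E p (fun x => if x i = true then F x else 0) +
      E p (fun x => if x i = true then 0 else F x) = E p F := by
    rw [← E_add]
    congr 1
    funext x
    split_ifs <;> simp
  linear_combination h2 - h1

/-- what a decision tree of depth `k` for `f` gives: the set of queried variables -/
def Tree (k : ℕ) (f : (Fin n → Bool) → Bool) : Prop :=
  ∃ Q : (Fin n → Bool) → Finset (Fin n), (∀ x, (Q x).card ≤ k) ∧
    (∀ x i b, i ∈ Q (Function.update x i b) ↔ i ∈ Q x) ∧
    ∀ x y, (∀ i ∈ Q x, y i = x i) → f y = f x

theorem tree_const (k : ℕ) (f : (Fin n → Bool) → Bool) (h : ∀ x y, f x = f y) : Tree k f :=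
  ⟨fun _ => ∅, fun _ => by simp, fun _ _ _ => by simp, fun x y _ => h y x⟩

theorem tree_node (k : ℕ) (f : (Fin n → Bool) → Bool) (i : Fin n)
    (h0 : Tree k (fun x => f (Function.update x i false)))
    (h1 : Tree k (fun x => f (Function.update x i true))) : Tree (k + 1) f := by
  obtain ⟨Q0, a0, b0, c0⟩ := h0
  obtain ⟨Q1, a1, b1, c1⟩ := h1
  refine ⟨fun x => insert i (if x i = true then Q1 x else Q0 x), fun x => ?_, fun x j b => ?_,
    fun x y h => ?_⟩
  · refine (card_insert_le _ _).trans ?_
    split_ifs
    · have := a1 x; omega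
    · have := a0 x; omega
  · by_cases hj : j = i
    · subst hj
      simp
    · have e : (Function.update x j b) i = x i := Function.update_of_ne (Ne.symm hj) _ _
      simp only [mem_insert, hj, false_or, e]
      split_ifs
      · exact b1 x j b
      · exact b0 x j b
  · have hi : y i = x i := h i (mem_insert_self _ _)
    cases hx : x i
    · have h3 := c0 x y (fun j hj => h j (mem_insert_of_mem (by simpa [hx] using hj)))
      simp only at h3
      have ex : Function.update x i false = x := by rw [← hx]; simp
      have ey : Function.update y i false = y := by rw [← hx, ← hi]; simp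
      rwa [ex, ey] at h3
    · have h3 := c1 x y (fun j hj => h j (mem_insert_of_mem (by simpa [hx] using hj)))
      simp only at h3
      have ex : Function.update x i true = x := by rw [← hx]; simp
      have ey : Function.update y i true = y := by rw [← hx, ← hi]; simp
      rwa [ex, ey] at h3

/-- expected number of queried variables with value `true` -/
theorem E_ones {p : ℝ} {k : ℕ} (h0 : 0 ≤ p) (h1 : p ≤ 1) (Q : (Fin n → Bool) → Finset (Fin n))
    (hk : ∀ x, (Q x).card ≤ k) (hQ : ∀ x i b, i ∈ Q (Function.update x i b) ↔ i ∈ Q x) :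
    E p (fun x => (((Q x).filter (fun i => x i = true)).card : ℝ)) ≤ p * k := by
  have e1 : ∀ x : Fin n → Bool, (((Q x).filter (fun i => x i = true)).card : ℝ) =
      ∑ i : Fin n, (if x i = true then (if i ∈ Q x then (1 : ℝ) else 0) else 0) := by
    intro x
    rw [card_filter]
    push_cast
    rw [← sum_filter_add_sum_filter_not univ (fun i => i ∈ Q x)]
    have : ∑ i ∈ univ.filter (fun i => ¬ i ∈ Q x),
        (if x i = true then (if i ∈ Q x then (1 : ℝ) else 0) else 0) = 0 := by
      refine sum_eq_zero fun i hi => ?_
      simp only [mem_filter, mem_univ, true_and] at hi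
      simp [hi]
    rw [this, add_zero]
    have e2 : univ.filter (fun i => i ∈ Q x) = Q x := by
      ext i; simp
    rw [e2]
    refine sum_congr rfl fun i hi => ?_
    simp [hi]
  have e3 : E p (fun x => (((Q x).filter (fun i => x i = true)).card : ℝ)) =
      ∑ i : Fin n, p * E p (fun x => if i ∈ Q x then (1 : ℝ) else 0) := by
    rw [show (fun x => (((Q x).filter (fun i => x i = true)).card : ℝ)) =
      fun x => ∑ i : Fin n, (if x i = true then (if i ∈ Q x then (1 : ℝ) else 0) else 0) from
      funext e1, E_sum]
    refine sum_congr rfl fun i _ => ?_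
    refine E_split i _ fun x b => ?_
    simp only [hQ x i b]
  rw [e3, ← mul_sum, ← E_sum]
  refine mul_le_mul_of_nonneg_left ?_ h0
  calc E p (fun x => ∑ i : Fin n, if i ∈ Q x then (1 : ℝ) else 0)
      ≤ E p (fun _ => (k : ℝ)) := by
        refine E_mono h0 h1 fun x => ?_
        rw [← card_filter_univ_eq_sum_helper x Q]
        exact_mod_cast hk x
    _ = k := E_const _ _
where
  card_filter_univ_eq_sum_helper (x : Fin n → Bool) (Q : (Fin n → Bool) → Finset (Fin n)) :
      (((Q x).card : ℕ) : ℝ) = ∑ i : Fin n, if i ∈ Q x then (1 : ℝ) else 0 := by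
    simp

end Pool.Agent.TH669.TC
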