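import Mathlib
import Pool.Agent.TH669.TC.Meas

set_option autoImplicit false

/-!
MP_d4e2f9_lc (TC): threshold gates; a gate which is undecided at density `p` is dominated by a
linear function of small weight.
-/

namespace Pool.Agent.TH669.TC

open Finset

variable {n : ℕ}

theorem E_zeros {p : ℝ} {k : ℕ} (h0 : 0 ≤ p) (h1 : p ≤ 1) (Q : (Fin n → Bool) → Finset (Fin n))
    (hk : ∀ x, (Q x).card ≤ k) (hQ : ∀ x i b, i ∈ Q (Function.update x i b) ↔ i ∈ Q x) :
    E p (fun x => (((Q x).filter (fun i => ng x i = true)).card : ℝ)) ≤ (1 - p) * k := by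
  have h := E_ones (p := 1 - p) (k := k) (by linarith) (by linarith) (fun x => Q (ng x))
    (fun x => hk _) (fun x i b => by
      have : ng (Function.update x i b) = Function.update (ng x) i (!b) := by
        funext j
        by_cases hj : j = i
        · subst hj; simp [ng]
        · simp [ng, Function.update_of_ne hj]
      rw [this]
      exact hQ _ _ _)
  have e := E_ng (1 - p)
    (fun x => (((Q x).filter (fun i => ng x i = true)).card : ℝ))
  rw [sub_sub_cancel] at e
  rw [← e]
  simp only [ng_ng]
  exact h

/-- the weighted number of true coordinates -/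
noncomputable def ws (u : Fin n → ℝ) (x : Fin n → Bool) : ℝ := ∑ i, if x i = true then u i else 0

theorem ws_nonneg {u : Fin n → ℝ} (hu : ∀ i, 0 ≤ u i) (x : Fin n → Bool) : 0 ≤ ws u x :=
  sum_nonneg fun i _ => by split_ifs; exacts [hu i, le_rfl]

theorem ws_mono {u : Fin n → ℝ} (hu : ∀ i, 0 ≤ u i) {x y : Fin n → Bool}
    (h : ∀ i, x i = true → y i = true) : ws u x ≤ ws u y := by
  refine sum_le_sum fun i _ => ?_
  by_cases hx : x i = true
  · simp [hx, h i hx]
  · simp only [hx, Bool.false_eq_true, if_false]
    split_ifs
    exacts [hu i, le_rfl]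

/-- truncation of the weights at the threshold -/
theorem ws_min {u : Fin n → ℝ} (hu : ∀ i, 0 ≤ u i) {k : ℝ} (hk : 0 < k) (x : Fin n → Bool) :
    k ≤ ws u x ↔ k ≤ ws (fun i => min (u i) k) x := by
  constructor
  · intro h
    by_cases hb : ∃ i, x i = true ∧ k ≤ u i
    · obtain ⟨i, hi, hki⟩ := hb
      calc k = (if x i = true then min (u i) k else 0) := by simp [hi, hki]
        _ ≤ ws (fun i => min (u i) k) x :=
          single_le_sum (f := fun i => if x i = true then min (u i) k else 0)
            (fun j _ => by
              show (0 : ℝ) ≤ if x j = true then min (u j) k else 0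
              split_ifs
              exacts [le_min (hu j) hk.le, le_rfl]) (mem_univ i)
    · push Not at hb
      refine h.trans (le_of_eq ?_)
      refine sum_congr rfl fun i _ => ?_
      split_ifs with hi
      · exact (min_eq_left (hb i hi).le).symm
      · rfl
  · intro h
    refine h.trans (sum_le_sum fun i _ => ?_)
    split_ifs
    exacts [min_le_left _ _, le_rfl]

/-- lower tail bound -/
theorem tail {v : Fin n → ℝ} {k p : ℝ} (hk : 0 < k) (hv : ∀ i, 0 ≤ v i) (hvk : ∀ i, v i ≤ k)
    (h0 : 0 ≤ p) (h1 : p ≤ 1) :
    E p (fun x => if k ≤ ws v x then (0 : ℝ) else 1) ≤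
      Real.exp (1 - p * (∑ i, v i) / (2 * k)) := by
  have hexp : ∀ t : ℝ, 0 ≤ t → t ≤ 1 → Real.exp (-t) ≤ 1 - t / 2 := by
    intro t ht0 ht1
    rw [Real.exp_neg]
    have h3 : t + 1 ≤ Real.exp t := Real.add_one_le_exp t
    rw [inv_le_iff_one_le_mul₀ (Real.exp_pos _)]
    calc (1 : ℝ) ≤ (1 - t / 2) * (t + 1) := by nlinarith
      _ ≤ (1 - t / 2) * Real.exp t := mul_le_mul_of_nonneg_left h3 (by linarith)
  calc E p (fun x => if k ≤ ws v x then (0 : ℝ) else 1)
      ≤ E p (fun x => Real.exp 1 * ∏ i, (if x i = true then Real.exp (-(v i / k)) else 1)) := by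
        refine E_mono h0 h1 fun x => ?_
        have e : ∏ i, (if x i = true then Real.exp (-(v i / k)) else 1) =
            Real.exp (-(ws v x / k)) := by
          unfold ws
          rw [sum_div, ← sum_neg_distrib, Real.exp_sum]
          refine prod_congr rfl fun i _ => ?_
          split_ifs <;> simp
        rw [e, ← Real.exp_add]
        split_ifs with h
        · exact (Real.exp_pos _).le
        · rw [Real.one_le_exp_iff]
          push Not at h
          have : ws v x / k ≤ 1 := (div_le_one hk).2 h.le
          linarith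
    _ = Real.exp 1 * ∏ i, (p * Real.exp (-(v i / k)) + (1 - p) * 1) := by
        rw [E_smul]
        congr 1
        have := E_prod p (fun i b => if b = true then Real.exp (-(v i / k)) else 1)
        simp only [Bool.false_eq_true, if_false, if_true] at this
        exact this
    _ ≤ Real.exp 1 * ∏ i, Real.exp (-(p * (v i) / (2 * k))) := by
        refine mul_le_mul_of_nonneg_left ?_ (Real.exp_pos _).le
        refine prod_le_prod (fun i _ => ?_) fun i _ => ?_
        · have := Real.exp_pos (-(v i / k))
          have h3 : 0 ≤ p * Real.exp (-(v i / k)) := mul_nonneg h0 this.le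
          linarith
        · have h3 := hexp (v i / k) (div_nonneg (hv i) hk.le) ((div_le_one hk).2 (hvk i))
          have h4 : p * Real.exp (-(v i / k)) ≤ p * (1 - v i / k / 2) :=
            mul_le_mul_of_nonneg_left h3 h0
          have h5 := Real.add_one_le_exp (-(p * (v i) / (2 * k)))
          have h6 : p * v i / (2 * k) = p * (v i / k / 2) := by
            field_simp
          rw [h6] at h5 ⊢
          linarith
    _ = Real.exp (1 - p * (∑ i, v i) / (2 * k)) := by
        rw [← Real.exp_sum, ← Real.exp_add]
        congr 1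
        rw [sum_neg_distrib, mul_sum, sum_div]
        ring

/-- an undecided gate is dominated by a linear function of small total weight -/
theorem dominate {u : Fin n → ℝ} (hu : ∀ i, 0 ≤ u i) {k p δ : ℝ} (hp0 : 0 < p) (hp1 : p ≤ 1)
    (hδ : 0 < δ) (hk : 0 < k)
    (hs : δ ≤ E p (fun x => if k ≤ ws u x then (0 : ℝ) else 1)) :
    ∃ v : Fin n → ℝ, (∀ i, 0 ≤ v i) ∧ (∑ i, v i ≤ 2 * (1 + Real.log (1 / δ)) / p) ∧
      ∀ x, (if k ≤ ws u x then (1 : ℝ) else 0) ≤ ws v x := by
  set v : Fin n → ℝ := fun i => min (u i) k with hv
  have hv0 : ∀ i, 0 ≤ v i := fun i => le_min (hu i) hk.le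
  have hvk : ∀ i, v i ≤ k := fun i => min_le_right _ _
  have h1 : δ ≤ Real.exp (1 - p * (∑ i, v i) / (2 * k)) := by
    refine hs.trans (le_trans (le_of_eq ?_) (tail hk hv0 hvk hp0.le hp1))
    congr 1
    funext x
    simp only [ws_min hu hk x]
    rfl
  have h2 : Real.log δ ≤ 1 - p * (∑ i, v i) / (2 * k) := by
    have := Real.log_le_log hδ h1
    rwa [Real.log_exp] at this
  refine ⟨fun i => v i / k, fun i => div_nonneg (hv0 i) hk.le, ?_, fun x => ?_⟩
  · rw [← sum_div, one_div, Real.log_inv, le_div_iff₀ hp0, div_mul_eq_mul_div, div_le_iff₀ hk]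
    have h3 : p * (∑ i, v i) / (2 * k) ≤ 1 - Real.log δ := by linarith
    rw [div_le_iff₀ (by positivity)] at h3
    linarith
  · have e : ws (fun i => v i / k) x = ws v x / k := by
      unfold ws
      rw [sum_div]
      refine sum_congr rfl fun i _ => ?_
      split_ifs <;> simp
    rw [e]
    split_ifs with h
    · rw [ws_min hu hk x] at h
      rw [le_div_iff₀ hk, one_mul]
      exact h
    · exact div_nonneg (ws_nonneg hv0 x) hk.le

/-- the dual of a threshold gate is a threshold gate -/
theorem dual_gate {u : Fin n → ℝ} (k : ℝ) (htop : k ≤ ws u (fun _ => true)) :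
    ∃ k' : ℝ, 0 < k' ∧ ∀ x, (k' ≤ ws u x ↔ ¬ k ≤ ws u (ng x)) := by
  classical
  set U := ws u (fun _ => true) with hU
  have hsum : ∀ x, ws u x + ws u (ng x) = U := by
    intro x
    rw [hU]
    unfold ws
    rw [← sum_add_distrib]
    refine sum_congr rfl fun i _ => ?_
    cases h : x i <;> simp [ng, h]
  have hU0 : 0 ≤ U - k := by linarith
  set S : Finset (Fin n → Bool) := univ.filter (fun x => U - k < ws u x) with hS
  by_cases hne : S.Nonempty
  · obtain ⟨x0, hx0, hmin⟩ := S.exists_min_image (fun x => ws u x) hne
    have hx0' : U - k < ws u x0 := by simpa [hS] using hx0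
    refine ⟨ws u x0, by linarith, fun x => ?_⟩
    constructor
    · intro h
      have := hsum x
      linarith
    · intro h
      push Not at h
      refine hmin x ?_
      have := hsum x
      simp only [hS, mem_filter, mem_univ, true_and]
      linarith
  · rw [not_nonempty_iff_eq_empty] at hne
    have hall : ∀ x, ws u x ≤ U - k := by
      intro x
      by_contra h
      push Not at h
      have : x ∈ S := by simp [hS, h]
      rw [hne] at this
      exact absurd this (notMem_empty _)
    refine ⟨U - k + 1, by linarith, fun x => ?_⟩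
    constructor
    · intro h
      have := hall x
      linarith
    · intro h
      push Not at h
      have h1 := hsum x
      have h2 := hall x
      linarith

end Pool.Agent.TH669.TC
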