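import Mathlib
import Pool.Agent.TH669.TC.Gate

set_option autoImplicit false

/-!
MP_d4e2f9_lc (TC): averaging over the group; the one-sided estimate.
-/

namespace Pool.Agent.TH669.TC

open Finset

variable {n : ℕ}

open Classical in
/-- the permutations which preserve `f` -/
noncomputable def sym (f : (Fin n → Bool) → Bool) : Finset (Equiv.Perm (Fin n)) :=
  univ.filter (fun σ => ∀ x, f (x ∘ σ) = f x)

theorem mem_sym (f : (Fin n → Bool) → Bool) (σ : Equiv.Perm (Fin n)) :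
    σ ∈ sym f ↔ ∀ x, f (x ∘ σ) = f x := by
  classical
  simp [sym]

theorem one_mem_sym (f : (Fin n → Bool) → Bool) : (1 : Equiv.Perm (Fin n)) ∈ sym f := by
  rw [mem_sym]
  intro x
  rfl

theorem sym_pos (f : (Fin n → Bool) → Bool) : 0 < (sym f).card :=
  card_pos.2 ⟨1, one_mem_sym f⟩

theorem mul_mem_sym (f : (Fin n → Bool) → Bool) {σ τ : Equiv.Perm (Fin n)} (hσ : σ ∈ sym f)
    (hτ : τ ∈ sym f) : τ * σ ∈ sym f := by
  rw [mem_sym] at *
  intro x
  have h1 : x ∘ ⇑(τ * σ) = (x ∘ τ) ∘ σ := by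
    funext i
    simp
  rw [h1, hσ, hτ]

theorem inv_mem_sym (f : (Fin n → Bool) → Bool) {τ : Equiv.Perm (Fin n)}
    (hτ : τ ∈ sym f) : τ⁻¹ ∈ sym f := by
  rw [mem_sym] at *
  intro x
  have h := hτ (x ∘ ⇑τ⁻¹)
  have h1 : (x ∘ ⇑τ⁻¹) ∘ ⇑τ = x := by
    funext i
    simp
  rw [h1] at h
  exact h.symm

/-- equidistribution of the images of a point -/
theorem count (f : (Fin n → Bool) → Bool)
    (htr : ∀ i j : Fin n, ∃ σ : Equiv.Perm (Fin n), σ i = j ∧ ∀ x : Fin n → Bool, f (x ∘ σ) = f x)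
    (y : Fin n → Bool) (i : Fin n) :
    (n : ℝ) * (((sym f).filter (fun σ => y (σ i) = true)).card : ℝ) =
      (sym f).card * ((univ.filter (fun j => y j = true)).card : ℝ) := by
  classical
  have hc : ∀ j, ((sym f).filter (fun σ => σ i = j)).card =
      ((sym f).filter (fun σ => σ i = i)).card := by
    intro j
    obtain ⟨τ, hτi, hτ⟩ := htr i j
    have hτ' : τ ∈ sym f := (mem_sym f τ).2 hτ
    refine card_bij' (fun σ _ => τ⁻¹ * σ) (fun σ _ => τ * σ) ?_ ?_ ?_ ?_
    · intro σ hσ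
      rw [mem_filter] at hσ ⊢
      refine ⟨mul_mem_sym f hσ.1 (inv_mem_sym f hτ'), ?_⟩
      rw [Equiv.Perm.mul_apply, hσ.2, ← hτi]
      simp
    · intro σ hσ
      rw [mem_filter] at hσ ⊢
      refine ⟨mul_mem_sym f hσ.1 hτ', ?_⟩
      rw [Equiv.Perm.mul_apply, hσ.2, hτi]
    · intro σ _
      simp
    · intro σ _
      simp
  set c := ((sym f).filter (fun σ => σ i = i)).card with hcdef
  have h1 : (sym f).card = n * c := by
    rw [card_eq_sum_card_fiberwise (f := fun σ : Equiv.Perm (Fin n) => σ i) (t := univ)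
      (fun _ _ => mem_coe.2 (mem_univ _))]
    simp [hc]
  have h2 : ((sym f).filter (fun σ => y (σ i) = true)).card =
      (univ.filter (fun j => y j = true)).card * c := by
    rw [card_eq_sum_card_fiberwise (f := fun σ : Equiv.Perm (Fin n) => σ i)
      (t := univ.filter (fun j => y j = true))
      (fun σ hσ => by
        have := (mem_filter.1 (mem_coe.1 hσ)).2
        exact mem_coe.2 (mem_filter.2 ⟨mem_univ _, this⟩))]
    rw [sum_congr rfl (g := fun _ => c), sum_const, smul_eq_mul]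
    intro j hj
    rw [← hc j, filter_filter]
    congr 1
    ext σ
    simp only [mem_filter]
    constructor
    · rintro ⟨a, _, b⟩
      exact ⟨a, b⟩
    · rintro ⟨a, b⟩
      refine ⟨a, ?_, b⟩
      rw [b]
      exact (mem_filter.1 hj).2
  rw [h1, h2]
  push_cast
  ring

/-- the average of a linear function over the group -/
theorem avg_ws (f : (Fin n → Bool) → Bool)
    (htr : ∀ i j : Fin n, ∃ σ : Equiv.Perm (Fin n), σ i = j ∧ ∀ x : Fin n → Bool, f (x ∘ σ) = f x)
    (y : Fin n → Bool) (v : Fin n → ℝ) :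
    (n : ℝ) * ∑ σ ∈ sym f, ws v (y ∘ σ) =
      (sym f).card * ((univ.filter (fun j => y j = true)).card : ℝ) * ∑ i, v i := by
  unfold ws
  rw [sum_comm, mul_sum, mul_sum]
  refine sum_congr rfl fun i _ => ?_
  rw [← count f htr y i, ← sum_filter, sum_const, nsmul_eq_mul]
  simp only [Function.comp_apply]
  ring

/-- the one-sided estimate -/
theorem one_side (f : (Fin n → Bool) → Bool)
    (htr : ∀ i j : Fin n, ∃ σ : Equiv.Perm (Fin n), σ i = j ∧ ∀ x : Fin n → Bool, f (x ∘ σ) = f x)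
    {M : ℕ} (T : Fin M → (Fin n → Bool) → Bool) (w : Fin M → ℝ) (hw : ∀ j, 0 ≤ w j)
    (y : Fin n → Bool) (Good : Finset (Equiv.Perm (Fin n))) (hG : Good ⊆ sym f)
    (J1 J2 : Finset (Fin M)) (hJ : Disjoint J1 J2)
    {p lam : ℝ} (hp : 0 < p) (hlam : 0 ≤ lam) (hn : 0 < n)
    (hdead : ∀ σ ∈ Good, ∀ j, j ∉ J1 → j ∉ J2 → T j (y ∘ σ) = false)
    (hdom : ∀ j ∈ J2, ∃ v : Fin n → ℝ, (∀ i, 0 ≤ v i) ∧ (∑ i, v i ≤ 2 * lam / p) ∧
      ∀ σ ∈ Good, (if T j (y ∘ σ) = true then (1 : ℝ) else 0) ≤ ws v (y ∘ σ))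
    (H : ∀ σ ∈ Good, (∑ j ∈ J1, w j) + (∑ j ∈ J2, w j) / 2 <
      ∑ j, if T j (y ∘ σ) = true then w j else 0) :
    (Good.card : ℝ) * ((n : ℝ) * p) ≤
      4 * lam * (sym f).card * ((univ.filter (fun j => y j = true)).card : ℝ) := by
  classical
  set a : ℝ := ((univ.filter (fun j => y j = true)).card : ℝ) with ha
  set g : ℝ := ((sym f).card : ℝ) with hg
  have hgpos : 0 < g := by
    rw [hg]
    exact_mod_cast sym_pos f
  have hn' : (0 : ℝ) < n := by exact_mod_cast hn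
  have ha0 : 0 ≤ a := Nat.cast_nonneg _
  rcases Good.eq_empty_or_nonempty with hemp | hne
  · rw [hemp]
    simp only [card_empty, Nat.cast_zero, zero_mul]
    positivity
  -- splitting
  have h1 : ∀ σ ∈ Good, (∑ j ∈ J2, w j) / 2 <
      ∑ j ∈ J2, w j * (if T j (y ∘ σ) = true then (1 : ℝ) else 0) := by
    intro σ hσ
    have h2 := H σ hσ
    have h3 : ∑ j, (if T j (y ∘ σ) = true then w j else 0) ≤
        (∑ j ∈ J1, w j) + ∑ j ∈ J2, w j * (if T j (y ∘ σ) = true then (1 : ℝ) else 0) := by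
      have e1 : ∑ j, (if T j (y ∘ σ) = true then w j else 0) =
          ∑ j ∈ J1 ∪ J2, (if T j (y ∘ σ) = true then w j else 0) := by
        symm
        refine sum_subset (subset_univ _) fun j _ hj => ?_
        rw [mem_union, not_or] at hj
        rw [hdead σ hσ j hj.1 hj.2]
        simp
      rw [e1, sum_union hJ]
      refine add_le_add (sum_le_sum fun j _ => ?_) (sum_le_sum fun j _ => ?_)
      · split_ifs
        exacts [le_rfl, hw j]
      · split_ifs <;> simp
    linarith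
  -- averages
  have h2 : ∀ j ∈ J2, ∑ σ ∈ Good, (if T j (y ∘ σ) = true then (1 : ℝ) else 0) ≤
      g * a * (2 * lam / p) / n := by
    intro j hj
    obtain ⟨v, hv0, hvs, hv⟩ := hdom j hj
    rw [le_div_iff₀ hn', mul_comm]
    calc (n : ℝ) * ∑ σ ∈ Good, (if T j (y ∘ σ) = true then (1 : ℝ) else 0)
        ≤ n * ∑ σ ∈ sym f, ws v (y ∘ σ) := by
          refine mul_le_mul_of_nonneg_left ?_ hn'.le
          refine (sum_le_sum fun σ hσ => hv σ hσ).trans ?_
          exact sum_le_sum_of_subset_of_nonneg hG fun σ _ _ => ws_nonneg hv0 _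
      _ = g * a * ∑ i, v i := avg_ws f htr y v
      _ ≤ g * a * (2 * lam / p) :=
          mul_le_mul_of_nonneg_left hvs (mul_nonneg hgpos.le ha0)
  have h3 : (Good.card : ℝ) * ((∑ j ∈ J2, w j) / 2) <
      (∑ j ∈ J2, w j) * (g * a * (2 * lam / p) / n) := by
    calc (Good.card : ℝ) * ((∑ j ∈ J2, w j) / 2)
        = ∑ σ ∈ Good, (∑ j ∈ J2, w j) / 2 := by rw [sum_const, nsmul_eq_mul]
      _ < ∑ σ ∈ Good, ∑ j ∈ J2, w j * (if T j (y ∘ σ) = true then (1 : ℝ) else 0) :=
          sum_lt_sum_of_nonempty hne h1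
      _ = ∑ j ∈ J2, w j * ∑ σ ∈ Good, (if T j (y ∘ σ) = true then (1 : ℝ) else 0) := by
          rw [sum_comm]
          exact sum_congr rfl fun j _ => (mul_sum _ _ _).symm
      _ ≤ ∑ j ∈ J2, w j * (g * a * (2 * lam / p) / n) :=
          sum_le_sum fun j hj => mul_le_mul_of_nonneg_left (h2 j hj) (hw j)
      _ = _ := by rw [sum_mul]
  have hW0 : 0 ≤ ∑ j ∈ J2, w j := sum_nonneg fun j _ => hw j
  have hW : 0 < ∑ j ∈ J2, w j := by
    rcases hW0.lt_or_eq with h | h
    · exact h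
    · rw [← h] at h3
      simp at h3
  have h5 : (Good.card : ℝ) / 2 < g * a * (2 * lam / p) / n := by
    have e1 : (Good.card : ℝ) * ((∑ j ∈ J2, w j) / 2) =
        (∑ j ∈ J2, w j) * ((Good.card : ℝ) / 2) := by ring
    rw [e1] at h3
    exact lt_of_mul_lt_mul_left h3 hW.le
  rw [lt_div_iff₀ hn', ← mul_div_assoc, lt_div_iff₀ hp] at h5
  linarith

end Pool.Agent.TH669.TC
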