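import Mathlib
import Pool.Agent.TH669.TC.Side
import Pool.Agent.TH669.TC.Dens

set_option autoImplicit false

/-!
MP_d4e2f9_lc (TC): domination of gates, the side lemma, good permutations.
-/

namespace Pool.Agent.TH669.TC

open Finset

variable {n : ℕ}

/-- threshold gate -/
noncomputable def tg (u : Fin n → ℝ) (t : ℝ) (x : Fin n → Bool) : Bool := decide (t ≤ ws u x)

theorem tg_mono {u : Fin n → ℝ} (hu : ∀ i, 0 ≤ u i) (t : ℝ) {x y : Fin n → Bool}
    (h : ∀ i, x i = true → y i = true) (hx : tg u t x = true) : tg u t y = true := by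
  unfold tg at *
  rw [decide_eq_true_eq] at *
  exact hx.trans (ws_mono hu h)

/-- probability that the function is `true` -/
noncomputable def P1 (T : (Fin n → Bool) → Bool) (p : ℝ) : ℝ :=
  E p (fun x => if T x = true then 1 else 0)

theorem P1_zero (T : (Fin n → Bool) → Bool) : P1 T 0 = if T (fun _ => false) = true then 1 else 0 :=
  E_zero _

theorem P1_one (T : (Fin n → Bool) → Bool) : P1 T 1 = if T (fun _ => true) = true then 1 else 0 :=
  E_one _

theorem P0_eq (T : (Fin n → Bool) → Bool) (p : ℝ) :
    E p (fun x => if T x = true then (0 : ℝ) else 1) = 1 - P1 T p := by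
  have h : E p (fun x => if T x = true then (0 : ℝ) else 1) + P1 T p = 1 := by
    unfold P1
    rw [← E_add]
    refine Eq.trans ?_ (E_const (n := n) p 1)
    congr 1
    funext x
    split_ifs <;> simp
  linarith

theorem P1_dual (T : (Fin n → Bool) → Bool) (p : ℝ) :
    P1 (fun z => !T (ng z)) (1 - p) = 1 - P1 T p := by
  rw [← P0_eq]
  unfold P1
  rw [← E_ng (n := n) p]
  congr 1
  funext x
  simp only [ng_ng]
  cases T x <;> simp

/-- domination: if the gate is not almost surely true then it is below a linear function -/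
def Dom (q dd lam : ℝ) (b : (Fin n → Bool) → Bool) : Prop :=
  dd ≤ 1 - P1 b q → ∃ v : Fin n → ℝ, (∀ i, 0 ≤ v i) ∧ (∑ i, v i ≤ 2 * lam / q) ∧
    ∀ x, (if b x = true then (1 : ℝ) else 0) ≤ ws v x

/-- threshold gates are dominated -/
theorem dom1 {u : Fin n → ℝ} (hu : ∀ i, 0 ≤ u i) (t : ℝ) {p δ : ℝ} (hp0 : 0 < p) (hp1 : p < 1)
    (hδ0 : 0 < δ) : Dom p δ (1 + Real.log (1 / δ)) (tg u t) := by
  intro hj
  have ht : 0 < t := by
    by_contra h
    push Not at h
    have : P1 (tg u t) p = 1 := by
      unfold P1
      refine Eq.trans ?_ (E_const (n := n) p 1)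
      congr 1
      funext x
      rw [if_pos]
      show decide _ = true
      rw [decide_eq_true_eq]
      exact h.trans (ws_nonneg hu x)
    rw [this] at hj
    linarith
  rw [← P0_eq] at hj
  obtain ⟨v, h1, h2, h3⟩ := dominate hu hp0 hp1.le hδ0 ht (by
    refine hj.trans (le_of_eq ?_)
    congr 1
    funext x
    unfold tg
    by_cases hx : t ≤ ws u x <;> simp [hx])
  refine ⟨v, h1, h2, fun x => ?_⟩
  refine le_trans (le_of_eq ?_) (h3 x)
  unfold tg
  by_cases hx : t ≤ ws u x <;> simp [hx]

/-- duals of threshold gates are dominated -/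
theorem dom0 {u : Fin n → ℝ} (hu : ∀ i, 0 ≤ u i) (t : ℝ) {p δ : ℝ} (hp0 : 0 < p) (hp1 : p < 1)
    (hδ0 : 0 < δ) : Dom (1 - p) δ (1 + Real.log (1 / δ)) (fun z => !tg u t (ng z)) := by
  intro hj
  rw [P1_dual, sub_sub_cancel] at hj
  have htop : t ≤ ws u (fun _ => true) := by
    by_contra h
    have : P1 (tg u t) p = 0 := by
      unfold P1
      refine Eq.trans ?_ (E_const (n := n) p 0)
      congr 1
      funext x
      rw [if_neg]
      intro hx
      have h2 := tg_mono hu t (y := fun _ => true) (fun _ _ => rfl) hx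
      unfold tg at h2
      rw [decide_eq_true_eq] at h2
      exact h h2
    rw [this] at hj
    linarith
  obtain ⟨k, hk, hk2⟩ := dual_gate t htop
  obtain ⟨v, h1, h2, h3⟩ := dominate (p := 1 - p) hu (by linarith) (by linarith) hδ0 hk (by
    refine hj.trans (le_of_eq ?_)
    unfold P1
    rw [← sub_sub_cancel 1 p, ← E_ng (1 - p), sub_sub_cancel]
    congr 1
    funext x
    have := hk2 x
    unfold tg
    by_cases hx : t ≤ ws u (ng x)
    · simp [hx, this]
    · simp [hx, this])
  refine ⟨v, h1, h2, fun x => ?_⟩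
  refine le_trans (le_of_eq ?_) (h3 x)
  have := hk2 x
  unfold tg
  by_cases hx : t ≤ ws u (ng x)
  · simp [hx, this]
  · simp [hx, this]

/-- monotone function of bits -/
def Mo {L : ℕ} (φ : (Fin L → Bool) → Bool) : Prop :=
  ∀ a b : Fin L → Bool, (∀ i, a i = true → b i = true) → φ a = true → φ b = true

theorem Mo.dual {L : ℕ} {φ : (Fin L → Bool) → Bool} (h : Mo φ) :
    Mo (fun a => !φ (fun l => !a l)) := by
  intro a b hab ha
  simp only [Bool.not_eq_true'] at ha ⊢
  by_contra hb
  have hb' : φ (fun l => !b l) = true := by simpa using hb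
  have := h (fun l => !b l) (fun l => !a l) (fun i hi => by
    simp only [Bool.not_eq_true'] at hi ⊢
    by_contra h2
    have h2' : a i = true := by simpa using h2
    rw [hab i h2'] at hi
    exact absurd hi (by simp)) hb'
  rw [ha] at this
  exact absurd this (by simp)

/-- a monotone function of `L` dominated gates -/
theorem dom_mid {L : ℕ} {q δ δ' lam : ℝ} (hq0 : 0 < q) (hq1 : q < 1) (hδ : 0 < δ) (hδ' : 0 < δ')
    (hL : L * δ' ≤ δ) (hlam : 0 ≤ lam) (b : Fin L → (Fin n → Bool) → Bool)
    (hb : ∀ l, Dom q δ' lam (b l))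
    (φ : (Fin L → Bool) → Bool) (hφ : Mo φ) (hh : δ ≤ 1 - P1 (fun x => φ (fun l => b l x)) q) :
    ∃ v : Fin n → ℝ, (∀ i, 0 ≤ v i) ∧ (∑ i, v i ≤ 2 * (L * lam) / q) ∧
      ∀ z, (∀ l, P1 (b l) q ≤ δ' → b l z = false) →
        (if φ (fun l => b l z) = true then (1 : ℝ) else 0) ≤ ws v z := by
  classical
  have hch : ∀ l, ∃ v : Fin n → ℝ, (∀ i, 0 ≤ v i) ∧ (∑ i, v i ≤ 2 * lam / q) ∧
      (δ' ≤ 1 - P1 (b l) q → ∀ x, (if b l x = true then (1 : ℝ) else 0) ≤ ws v x) := by
    intro l
    by_cases h : δ' ≤ 1 - P1 (b l) q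
    · obtain ⟨v, h1, h2, h3⟩ := hb l h
      exact ⟨v, h1, h2, fun _ => h3⟩
    · refine ⟨fun _ => 0, fun _ => le_rfl, ?_, fun h' => absurd h' h⟩
      simp only [sum_const_zero]
      positivity
  choose v hv0 hvs hvd using hch
  refine ⟨fun i => ∑ l, v l i, fun i => sum_nonneg fun l _ => hv0 l i, ?_, fun z hz => ?_⟩
  · rw [sum_comm]
    calc ∑ l, ∑ i, v l i ≤ ∑ _l : Fin L, 2 * lam / q := sum_le_sum fun l _ => hvs l
      _ = 2 * (L * lam) / q := by
        rw [sum_const, card_univ, Fintype.card_fin, nsmul_eq_mul]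
        ring
  · have hws : ws (fun i => ∑ l, v l i) z = ∑ l, ws (v l) z := by
      unfold ws
      rw [sum_comm]
      refine sum_congr rfl fun i _ => ?_
      split_ifs
      · rfl
      · simp
    rw [hws]
    split_ifs with hz1
    · by_cases hex : ∃ l, δ' ≤ 1 - P1 (b l) q ∧ b l z = true
      · obtain ⟨l, hl1, hl2⟩ := hex
        have h3 := hvd l hl1 z
        rw [if_pos hl2] at h3
        exact h3.trans (single_le_sum (f := fun l => ws (v l) z)
          (fun l _ => ws_nonneg (hv0 l) z) (mem_univ l))
      · exfalso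
        push Not at hex
        -- all true gates are alive
        have hal : φ (fun l => decide (1 - P1 (b l) q < δ')) = true := by
          refine hφ _ _ (fun l hl => ?_) hz1
          rw [decide_eq_true_eq]
          by_contra h2
          push Not at h2
          exact absurd hl (by simpa using hex l h2)
        have h4 : 1 - P1 (fun x => φ (fun l => b l x)) q ≤
            ∑ l ∈ univ.filter (fun l => 1 - P1 (b l) q < δ'), (1 - P1 (b l) q) := by
          rw [← P0_eq]
          have e : ∀ l, 1 - P1 (b l) q = E q (fun x => if b l x = true then (0 : ℝ) else 1) :=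
            fun l => (P0_eq _ _).symm
          simp only [e]
          rw [← E_sum]
          refine E_mono hq0.le hq1.le fun x => ?_
          have hnn : ∀ l : Fin L, (0 : ℝ) ≤ if b l x = true then (0 : ℝ) else 1 := by
            intro l
            split_ifs <;> simp
          split_ifs with hx
          · exact sum_nonneg fun l _ => hnn l
          · have : ∃ l, 1 - P1 (b l) q < δ' ∧ ¬ b l x = true := by
              by_contra hcon
              push Not at hcon
              exact hx (hφ _ _ (fun l hl => hcon l (by rwa [decide_eq_true_eq] at hl)) hal)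
            obtain ⟨l, hl1, hl2⟩ := this
            refine le_trans ?_ (single_le_sum (fun l _ => hnn l)
              (show l ∈ _ from mem_filter.2 ⟨mem_univ l, ?_⟩))
            · rw [if_neg hl2]
            · rw [← e l]
              exact hl1
        rcases (univ.filter (fun l => 1 - P1 (b l) q < δ')).eq_empty_or_nonempty with h5 | h5
        · rw [h5, sum_empty] at h4
          linarith
        · have h6 : ∑ l ∈ univ.filter (fun l => 1 - P1 (b l) q < δ'), (1 - P1 (b l) q) <
              ∑ _l ∈ univ.filter (fun l => 1 - P1 (b l) q < δ'), δ' :=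
            sum_lt_sum_of_nonempty h5 fun l hl => (mem_filter.1 hl).2
          rw [sum_const, nsmul_eq_mul] at h6
          have h7 : ((univ.filter (fun l => 1 - P1 (b l) q < δ')).card : ℝ) * δ' ≤ L * δ' := by
            refine mul_le_mul_of_nonneg_right ?_ hδ'.le
            have := card_filter_le (univ : Finset (Fin L)) (fun l => 1 - P1 (b l) q < δ')
            rw [card_univ, Fintype.card_fin] at this
            exact_mod_cast this
          linarith
    · exact sum_nonneg fun l _ => ws_nonneg (hv0 l) z

/-- the side lemma -/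
theorem side (f : (Fin n → Bool) → Bool)
    (htr : ∀ i j : Fin n, ∃ σ : Equiv.Perm (Fin n), σ i = j ∧ ∀ x : Fin n → Bool, f (x ∘ σ) = f x)
    {K M L : ℕ} (b : Fin K → Fin M → Fin L → (Fin n → Bool) → Bool)
    (φ : Fin K → Fin M → (Fin L → Bool) → Bool) (hφ : ∀ i j, Mo (φ i j))
    (w : Fin K → Fin M → ℝ) (hw : ∀ i j, 0 ≤ w i j)
    {q δ δ' lam : ℝ} (hq0 : 0 < q) (hq1 : q < 1) (hδ : 0 < δ) (hδ2 : δ < 1 / 2) (hδ' : 0 < δ')
    (hL : L * δ' ≤ δ) (hlam : 0 ≤ lam) (hn : 0 < n)
    (hb : ∀ i j l, Dom q δ' lam (b i j l))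
    (y : Fin n → Bool) (Good : Finset (Equiv.Perm (Fin n))) (hG : Good ⊆ sym f)
    (hG2 : (sym f).card ≤ 2 * Good.card)
    (hdead : ∀ σ ∈ Good, ∀ i j, P1 (fun x => φ i j (fun l => b i j l x)) q ≤ δ →
      φ i j (fun l => b i j l (y ∘ σ)) = false)
    (hdead' : ∀ σ ∈ Good, ∀ i j l, P1 (b i j l) q ≤ δ' → b i j l (y ∘ σ) = false)
    (H : ∀ σ ∈ Good, ∃ i,
      (∑ j, if 1 - P1 (fun x => φ i j (fun l => b i j l x)) q < δ then w i j else 0) +
      (∑ j, if δ < P1 (fun x => φ i j (fun l => b i j l x)) q then w i j else 0) <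
      2 * ∑ j, if φ i j (fun l => b i j l (y ∘ σ)) = true then w i j else 0) :
    (n : ℝ) * q ≤ 8 * (K * L * lam) * ((univ.filter (fun j => y j = true)).card : ℝ) := by
  classical
  set a : ℝ := ((univ.filter (fun j => y j = true)).card : ℝ) with ha
  set h : Fin K → Fin M → (Fin n → Bool) → Bool := fun i j x => φ i j (fun l => b i j l x) with hh
  set R : Fin K → Equiv.Perm (Fin n) → Prop := fun i σ =>
      (∑ j, if 1 - P1 (h i j) q < δ then w i j else 0) +
      (∑ j, if δ < P1 (h i j) q then w i j else 0) <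
      2 * ∑ j, if h i j (y ∘ σ) = true then w i j else 0 with hR
  have hn' : (0 : ℝ) < n := by exact_mod_cast hn
  have ha0 : 0 ≤ a := Nat.cast_nonneg _
  have hone : ∀ i, ((Good.filter (R i)).card : ℝ) * ((n : ℝ) * q) ≤
      4 * (L * lam) * (sym f).card * a := by
    intro i
    refine one_side f htr (h i) (w i) (hw i) y (Good.filter (R i))
      ((filter_subset _ _).trans hG)
      (univ.filter (fun j => 1 - P1 (h i j) q < δ))
      (univ.filter (fun j => δ < P1 (h i j) q ∧ δ ≤ 1 - P1 (h i j) q)) ?_ hq0 (by positivity) hn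
      ?_ ?_ ?_
    · rw [disjoint_left]
      intro j hj1 hj2
      simp only [mem_filter, mem_univ, true_and] at hj1 hj2
      linarith [hj2.2]
    · intro σ hσ j hj1 hj2
      simp only [mem_filter, mem_univ, true_and, not_lt, not_and_or, not_le] at hj1 hj2
      refine hdead σ (mem_filter.1 hσ).1 i j ?_
      rcases hj2 with h | h
      · exact h
      · linarith
    · intro j hj
      simp only [mem_filter, mem_univ, true_and] at hj
      obtain ⟨v, h1, h2, h3⟩ := dom_mid hq0 hq1 hδ hδ' hL hlam (b i j) (hb i j) (φ i j) (hφ i j) hj.2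
      exact ⟨v, h1, h2, fun σ hσ => h3 _ fun l hl => hdead' σ (mem_filter.1 hσ).1 i j l hl⟩
    · intro σ hσ
      have h2 : R i σ := (mem_filter.1 hσ).2
      rw [hR] at h2
      have e1 : (∑ j, if δ < P1 (h i j) q then w i j else 0) =
          (∑ j ∈ univ.filter (fun j => 1 - P1 (h i j) q < δ), w i j) +
          ∑ j ∈ univ.filter (fun j => δ < P1 (h i j) q ∧ δ ≤ 1 - P1 (h i j) q), w i j := by
        rw [sum_filter, sum_filter, ← sum_add_distrib]
        refine sum_congr rfl fun j _ => ?_
        by_cases ha : 1 - P1 (h i j) q < δ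
        · have hb' : δ < P1 (h i j) q := by linarith
          rw [if_pos ha, if_pos hb', if_neg, add_zero]
          intro h
          linarith [h.2]
        · rw [if_neg ha, zero_add]
          push Not at ha
          by_cases hb' : δ < P1 (h i j) q
          · rw [if_pos hb', if_pos ⟨hb', ha⟩]
          · rw [if_neg hb', if_neg]
            exact fun h => hb' h.1
      have e2 : (∑ j, if 1 - P1 (h i j) q < δ then w i j else 0) =
          ∑ j ∈ univ.filter (fun j => 1 - P1 (h i j) q < δ), w i j := by
        rw [sum_filter]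
      rw [e1, e2] at h2
      linarith
  have hcov : Good ⊆ univ.biUnion (fun i => Good.filter (R i)) := by
    intro σ hσ
    obtain ⟨i, hi⟩ := H σ hσ
    rw [mem_biUnion]
    exact ⟨i, mem_univ i, mem_filter.2 ⟨hσ, hi⟩⟩
  have hcard : (Good.card : ℝ) ≤ ∑ i, ((Good.filter (R i)).card : ℝ) := by
    exact_mod_cast (card_le_card hcov).trans card_biUnion_le
  have h5 : (Good.card : ℝ) * ((n : ℝ) * q) ≤ K * (4 * (L * lam) * (sym f).card * a) := by
    calc (Good.card : ℝ) * ((n : ℝ) * q)
        ≤ (∑ i, ((Good.filter (R i)).card : ℝ)) * ((n : ℝ) * q) :=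
          mul_le_mul_of_nonneg_right hcard (by positivity)
      _ = ∑ i, ((Good.filter (R i)).card : ℝ) * ((n : ℝ) * q) := by rw [sum_mul]
      _ ≤ ∑ _i : Fin K, 4 * (L * lam) * (sym f).card * a := sum_le_sum fun i _ => hone i
      _ = K * (4 * (L * lam) * (sym f).card * a) := by
        rw [sum_const, card_univ, Fintype.card_fin, nsmul_eq_mul]
  have hgpos : (0 : ℝ) < (sym f).card := by exact_mod_cast sym_pos f
  have hG2' : ((sym f).card : ℝ) ≤ 2 * Good.card := by exact_mod_cast hG2
  have h6 : ((sym f).card : ℝ) * ((n : ℝ) * q) ≤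
      (sym f).card * (8 * (K * L * lam) * a) := by
    calc ((sym f).card : ℝ) * ((n : ℝ) * q) ≤ (2 * Good.card) * ((n : ℝ) * q) :=
          mul_le_mul_of_nonneg_right hG2' (by positivity)
      _ = 2 * (Good.card * ((n : ℝ) * q)) := by ring
      _ ≤ 2 * (K * (4 * (L * lam) * (sym f).card * a)) := by linarith
      _ = _ := by ring
  exact le_of_mul_le_mul_left h6 hgpos

open Classical in
/-- the permutations for which all decided functions behave -/
noncomputable def good {ι : Type} (B : ι → (Fin n → Bool) → Bool) (d : ι → ℝ)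
    (f : (Fin n → Bool) → Bool) (p : ℝ) (x : Fin n → Bool) : Finset (Equiv.Perm (Fin n)) :=
  (sym f).filter (fun σ => ∀ j, (P1 (B j) p ≤ d j → B j (x ∘ σ) = false) ∧
    (1 - P1 (B j) p ≤ d j → B j (x ∘ σ) = true))

theorem good_subset {ι : Type} (B : ι → (Fin n → Bool) → Bool) (d : ι → ℝ)
    (f : (Fin n → Bool) → Bool) (p : ℝ) (x : Fin n → Bool) : good B d f p x ⊆ sym f := by
  classical
  unfold good
  exact filter_subset _ _

theorem mem_good {ι : Type} {B : ι → (Fin n → Bool) → Bool} {d : ι → ℝ}
    {f : (Fin n → Bool) → Bool} {p : ℝ} {x : Fin n → Bool} {σ : Equiv.Perm (Fin n)}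
    (h : σ ∈ good B d f p x) (j : ι) : (P1 (B j) p ≤ d j → B j (x ∘ σ) = false) ∧
    (1 - P1 (B j) p ≤ d j → B j (x ∘ σ) = true) := by
  classical
  unfold good at h
  exact (mem_filter.1 h).2 j

/-- most inputs are good for most permutations -/
theorem good_prob {ι : Type} [Fintype ι] (B : ι → (Fin n → Bool) → Bool) (d : ι → ℝ)
    (hd0 : ∀ j, 0 ≤ d j) (hd1 : ∀ j, d j < 1 / 2) (hds : ∑ j, d j ≤ 1 / 8)
    (f : (Fin n → Bool) → Bool) {p : ℝ} (hp0 : 0 < p) (hp1 : p < 1) :
    3 / 4 ≤ E p (fun x => if (sym f).card ≤ 2 * (good B d f p x).card then (1 : ℝ) else 0) := by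
  classical
  set ok : (Fin n → Bool) → Prop := fun x => ∀ j, (P1 (B j) p ≤ d j → B j x = false) ∧
    (1 - P1 (B j) p ≤ d j → B j x = true) with hok
  have h1 : E p (fun x => if ok x then (0 : ℝ) else 1) ≤ 1 / 8 := by
    refine le_trans ?_ hds
    calc E p (fun x => if ok x then (0 : ℝ) else 1)
        ≤ E p (fun x => ∑ j,
            ((if P1 (B j) p ≤ d j then (1 : ℝ) else 0) * (if B j x = true then 1 else 0) +
            (if 1 - P1 (B j) p ≤ d j then (1 : ℝ) else 0) *
              (if B j x = true then 0 else 1))) := by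
          refine E_mono hp0.le hp1.le fun x => ?_
          have hnn : ∀ j, 0 ≤
            ((if P1 (B j) p ≤ d j then (1 : ℝ) else 0) * (if B j x = true then 1 else 0) +
            (if 1 - P1 (B j) p ≤ d j then (1 : ℝ) else 0) *
              (if B j x = true then 0 else 1)) := by
            intro j
            split_ifs <;> simp
          split_ifs with h
          · exact sum_nonneg fun j _ => hnn j
          · simp only [hok, not_forall] at h
            obtain ⟨j, hj⟩ := h
            refine le_trans ?_ (single_le_sum (fun i _ => hnn i) (mem_univ j))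
            rw [not_and_or, Classical.not_imp, Classical.not_imp] at hj
            rcases hj with ⟨h2, h3⟩ | ⟨h2, h3⟩
            · have h3' : B j x = true := by simpa using h3
              rw [if_pos h2, if_pos h3', if_pos h3']
              simp
            · rw [if_pos h2, if_neg h3, if_neg h3]
              simp
      _ = ∑ j, ((if P1 (B j) p ≤ d j then (1 : ℝ) else 0) * P1 (B j) p +
            (if 1 - P1 (B j) p ≤ d j then (1 : ℝ) else 0) * (1 - P1 (B j) p)) := by
          rw [E_sum]
          refine sum_congr rfl fun j _ => ?_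
          rw [E_add, E_smul, E_smul, P0_eq]
          rfl
      _ ≤ ∑ j, d j := by
          refine sum_le_sum fun j _ => ?_
          have h4 := hd0 j
          have h5 := hd1 j
          split_ifs with h2 h3 h3
          · linarith
          · linarith
          · linarith
          · linarith
  have hperm : ∀ σ : Equiv.Perm (Fin n), E p (fun x => if ok (x ∘ σ) then (0 : ℝ) else 1) =
      E p (fun x => if ok x then (0 : ℝ) else 1) := fun σ =>
    E_perm p σ (fun x => if ok x then (0 : ℝ) else 1)
  set g : ℝ := ((sym f).card : ℝ) with hg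
  have hgpos : 0 < g := by
    rw [hg]
    exact_mod_cast sym_pos f
  have hsplit : ∀ x, g - ((good B d f p x).card : ℝ) =
      ∑ σ ∈ sym f, if ok (x ∘ σ) then (0 : ℝ) else 1 := by
    intro x
    have e1 : ((good B d f p x).card : ℝ) = ∑ σ ∈ sym f, if ok (x ∘ σ) then (1 : ℝ) else 0 := by
      unfold good
      rw [card_filter]
      push_cast
      rfl
    rw [e1, hg, ← mul_one ((sym f).card : ℝ), ← nsmul_eq_mul, ← sum_const, ← sum_sub_distrib]
    refine sum_congr rfl fun σ _ => ?_
    split_ifs <;> simp
  have h2 : E p (fun x => g - ((good B d f p x).card : ℝ)) ≤ g * (1 / 8) := by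
    rw [show (fun x => g - ((good B d f p x).card : ℝ)) =
      fun x => ∑ σ ∈ sym f, if ok (x ∘ σ) then (0 : ℝ) else 1 from funext hsplit, E_sum]
    calc ∑ σ ∈ sym f, E p (fun x => if ok (x ∘ σ) then (0 : ℝ) else 1)
        = ∑ σ ∈ sym f, E p (fun x => if ok x then (0 : ℝ) else 1) :=
          sum_congr rfl fun σ _ => hperm σ
      _ = g * E p (fun x => if ok x then (0 : ℝ) else 1) := by
          rw [sum_const, nsmul_eq_mul]
      _ ≤ g * (1 / 8) := mul_le_mul_of_nonneg_left h1 hgpos.le
  have h3 : E p (fun x => 1 - 2 / g * (g - ((good B d f p x).card : ℝ))) ≤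
      E p (fun x => if (sym f).card ≤ 2 * (good B d f p x).card then (1 : ℝ) else 0) := by
    refine E_mono hp0.le hp1.le fun x => ?_
    have e : 1 - 2 / g * (g - ((good B d f p x).card : ℝ)) =
        (2 * ((good B d f p x).card : ℝ) - g) / g := by
      field_simp
      ring
    rw [e]
    split_ifs with h
    · rw [div_le_one hgpos]
      have : ((good B d f p x).card : ℝ) ≤ g := by
        rw [hg]
        unfold good
        exact_mod_cast card_filter_le _ _
      linarith
    · push Not at h
      refine div_nonpos_of_nonpos_of_nonneg ?_ hgpos.le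
      have : 2 * ((good B d f p x).card : ℝ) < g := by
        rw [hg]
        exact_mod_cast h
      linarith
  have h4 : E p (fun x => 1 - 2 / g * (g - ((good B d f p x).card : ℝ))) =
      1 - 2 / g * E p (fun x => g - ((good B d f p x).card : ℝ)) := by
    have := E_add p (fun x => 1) (fun x => (-(2 / g)) * (g - ((good B d f p x).card : ℝ)))
    rw [E_smul, E_const] at this
    calc _ = E p (fun x => 1 + -(2 / g) * (g - ((good B d f p x).card : ℝ))) := by
          congr 1
          funext x
          ring
      _ = _ := by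
          rw [this]
          ring
  refine le_trans ?_ h3
  rw [h4]
  have h5 : 2 / g * E p (fun x => g - ((good B d f p x).card : ℝ)) ≤ 2 / g * (g * (1 / 8)) :=
    mul_le_mul_of_nonneg_left h2 (by positivity)
  have h6 : 2 / g * (g * (1 / 8)) = 1 / 4 := by
    field_simp
    norm_num
  rw [h6] at h5
  linarith

/-- weighted sum of the functions of a block -/
noncomputable def tot {K M : ℕ} (h : Fin K → Fin M → (Fin n → Bool) → Bool)
    (w : Fin K → Fin M → ℝ) (i : Fin K) (x : Fin n → Bool) : ℝ :=
  ∑ j, if h i j x = true then w i j else 0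

/-- the critical density -/
theorem density {K M : ℕ} (h : Fin K → Fin M → (Fin n → Bool) → Bool)
    (w : Fin K → Fin M → ℝ) (hw : ∀ i j, 0 ≤ w i j) (θ : Fin K → ℝ) (Phi : (Fin K → Bool) → Bool)
    (hPhi : Mo Phi) {δ : ℝ} (hδ0 : 0 < δ) (hδ1 : δ < 1 / 2)
    (h0 : Phi (fun i => decide (θ i ≤ tot h w i (fun _ => false))) = false)
    (h1 : Phi (fun i => decide (θ i ≤ tot h w i (fun _ => true))) = true) :
    ∃ p : ℝ, 0 < p ∧ p < 1 ∧
      Phi (fun i => decide (2 * θ i ≤
        (∑ j, if 1 - P1 (h i j) p < δ then w i j else 0) +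
          ∑ j, if δ < P1 (h i j) p then w i j else 0)) = false ∧
      Phi (fun i => decide (2 * θ i ≤
        (∑ j, if 1 - P1 (h i j) p ≤ δ then w i j else 0) +
          ∑ j, if δ ≤ P1 (h i j) p then w i j else 0)) = true := by
  classical
  have hcont : ∀ i j, Continuous (fun p => P1 (h i j) p) := fun i j => E_continuous _
  set Psi : (((Fin K × Fin M) ⊕ (Fin K × Fin M)) → Bool) → Bool := fun z =>
    Phi (fun i => decide (2 * θ i ≤
        (∑ j, if z (Sum.inl (i, j)) = true then w i j else 0) +
          ∑ j, if z (Sum.inr (i, j)) = true then w i j else 0)) with hPsi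
  have hPsiM : ∀ a b : ((Fin K × Fin M) ⊕ (Fin K × Fin M)) → Bool,
      (∀ i, a i = true → b i = true) → Psi a = true → Psi b = true := by
    intro a b hab ha
    refine hPhi _ _ (fun i hi => ?_) ha
    rw [decide_eq_true_eq] at hi ⊢
    refine hi.trans (add_le_add (sum_le_sum fun j _ => ?_) (sum_le_sum fun j _ => ?_))
    · by_cases h1 : a (Sum.inl (i, j)) = true
      · rw [if_pos h1, if_pos (hab _ h1)]
      · rw [if_neg h1]
        split_ifs
        exacts [hw i j, le_rfl]
    · by_cases h1 : a (Sum.inr (i, j)) = true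
      · rw [if_pos h1, if_pos (hab _ h1)]
      · rw [if_neg h1]
        split_ifs
        exacts [hw i j, le_rfl]
  obtain ⟨F, hF1, hF2⟩ : ∃ F : ((Fin K × Fin M) ⊕ (Fin K × Fin M)) → ℝ → ℝ,
      (∀ i j p, F (Sum.inl (i, j)) p = δ - (1 - P1 (h i j) p)) ∧
      (∀ i j p, F (Sum.inr (i, j)) p = P1 (h i j) p - δ) :=
    ⟨Sum.elim (fun c p => δ - (1 - P1 (h c.1 c.2) p)) (fun c p => P1 (h c.1 c.2) p - δ),
      fun _ _ _ => rfl, fun _ _ _ => rfl⟩
  have hsw : ∀ (i : Fin K) (A B : Fin M → Prop) [∀ j, Decidable (A j)] [∀ j, Decidable (B j)],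
      (∀ j, A j ↔ B j) → (∑ j, if A j then w i j else 0) = ∑ j, if B j then w i j else 0 := by
    intro i A B _ _ hAB
    refine sum_congr rfl fun j _ => ?_
    by_cases hj : A j
    · rw [if_pos hj, if_pos ((hAB j).1 hj)]
    · rw [if_neg hj, if_neg (fun hb => hj ((hAB j).2 hb))]
  obtain ⟨p, hp0, hp1, hA, hB⟩ := crossing Psi hPsiM F
    (by
      rintro (⟨i, j⟩ | ⟨i, j⟩)
      · have : F (Sum.inl (i, j)) = fun p => δ - (1 - P1 (h i j) p) := funext fun p => hF1 i j p
        rw [this]
        exact continuous_const.sub (continuous_const.sub (hcont i j))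
      · have : F (Sum.inr (i, j)) = fun p => P1 (h i j) p - δ := funext fun p => hF2 i j p
        rw [this]
        exact (hcont i j).sub continuous_const)
    (by
      refine Eq.trans ?_ h0
      rw [hPsi]
      refine congrArg Phi (funext fun i => decide_eq_decide.2 ?_)
      have e1 : (∑ j, if decide (0 ≤ F (Sum.inl (i, j)) 0) = true then w i j else 0) =
          tot h w i (fun _ => false) := by
        refine hsw i _ _ fun j => ?_
        rw [decide_eq_true_eq, hF1, P1_zero]
        by_cases hj : h i j (fun _ => false) = true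
        · rw [if_pos hj]
          exact ⟨fun _ => hj, fun _ => by linarith⟩
        · rw [if_neg hj]
          exact ⟨fun h => by linarith, fun h => absurd h hj⟩
      have e2 : (∑ j, if decide (0 ≤ F (Sum.inr (i, j)) 0) = true then w i j else 0) =
          tot h w i (fun _ => false) := by
        refine hsw i _ _ fun j => ?_
        rw [decide_eq_true_eq, hF2, P1_zero]
        by_cases hj : h i j (fun _ => false) = true
        · rw [if_pos hj]
          exact ⟨fun _ => hj, fun _ => by linarith⟩
        · rw [if_neg hj]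
          exact ⟨fun h => by linarith, fun h => absurd h hj⟩
      rw [e1, e2]
      constructor
      · intro h; linarith
      · intro h; linarith)
    (by
      refine Eq.trans ?_ h1
      rw [hPsi]
      refine congrArg Phi (funext fun i => decide_eq_decide.2 ?_)
      have e1 : (∑ j, if decide (0 < F (Sum.inl (i, j)) 1) = true then w i j else 0) =
          tot h w i (fun _ => true) := by
        refine hsw i _ _ fun j => ?_
        rw [decide_eq_true_eq, hF1, P1_one]
        by_cases hj : h i j (fun _ => true) = true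
        · rw [if_pos hj]
          exact ⟨fun _ => hj, fun _ => by linarith⟩
        · rw [if_neg hj]
          exact ⟨fun h => by linarith, fun h => absurd h hj⟩
      have e2 : (∑ j, if decide (0 < F (Sum.inr (i, j)) 1) = true then w i j else 0) =
          tot h w i (fun _ => true) := by
        refine hsw i _ _ fun j => ?_
        rw [decide_eq_true_eq, hF2, P1_one]
        by_cases hj : h i j (fun _ => true) = true
        · rw [if_pos hj]
          exact ⟨fun _ => hj, fun _ => by linarith⟩
        · rw [if_neg hj]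
          exact ⟨fun h => by linarith, fun h => absurd h hj⟩
      rw [e1, e2]
      constructor
      · intro h; linarith
      · intro h; linarith)
  refine ⟨p, hp0, hp1, ?_, ?_⟩
  · refine Eq.trans (congrArg Phi (funext fun i => decide_eq_decide.2 ?_)) hA
    have e1 : (∑ j, if 1 - P1 (h i j) p < δ then w i j else 0) =
        ∑ j, if decide (0 < F (Sum.inl (i, j)) p) = true then w i j else 0 :=
      hsw i _ _ fun j => by rw [decide_eq_true_eq, hF1, sub_pos]
    have e2 : (∑ j, if δ < P1 (h i j) p then w i j else 0) =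
        ∑ j, if decide (0 < F (Sum.inr (i, j)) p) = true then w i j else 0 :=
      hsw i _ _ fun j => by rw [decide_eq_true_eq, hF2, sub_pos]
    rw [e1, e2]
  · refine Eq.trans (congrArg Phi (funext fun i => decide_eq_decide.2 ?_)) hB
    have e1 : (∑ j, if 1 - P1 (h i j) p ≤ δ then w i j else 0) =
        ∑ j, if decide (0 ≤ F (Sum.inl (i, j)) p) = true then w i j else 0 :=
      hsw i _ _ fun j => by rw [decide_eq_true_eq, hF1, sub_nonneg]
    have e2 : (∑ j, if δ ≤ P1 (h i j) p then w i j else 0) =
        ∑ j, if decide (0 ≤ F (Sum.inr (i, j)) p) = true then w i j else 0 :=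
      hsw i _ _ fun j => by rw [decide_eq_true_eq, hF2, sub_nonneg]
    rw [e1, e2]

end Pool.Agent.TH669.TC
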