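import Mathlib
import Pool.Agent.TH669.TC.Main

set_option autoImplicit false

/-!
MP_d4e2f9_lc (TC): assembly.
-/

namespace Pool.Agent.TH669.TC

open Finset

variable {n : ℕ}

/-- expectation step: certificates which are long on good inputs give many queries -/
theorem finish (f : (Fin n → Bool) → Bool) (Q : (Fin n → Bool) → Finset (Fin n)) (k : ℕ)
    (hQ1 : ∀ x, (Q x).card ≤ k)
    (hQ2 : ∀ x i b, i ∈ Q (Function.update x i b) ↔ i ∈ Q x) {p Lam : ℝ} (hp0 : 0 < p)
    (hp1 : p < 1) (hL0 : 0 < Lam) (G : (Fin n → Bool) → Prop) [DecidablePred G]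
    (hprob : 3 / 4 ≤ E p (fun x => if G x then (1 : ℝ) else 0))
    (hside1 : ∀ x, G x → f x = true →
      (n : ℝ) * p ≤ 8 * Lam * (((Q x).filter (fun i => x i = true)).card : ℝ))
    (hside0 : ∀ x, G x → f x = false →
      (n : ℝ) * (1 - p) ≤ 8 * Lam * (((Q x).filter (fun i => ng x i = true)).card : ℝ)) :
    3 * (n : ℝ) ≤ 64 * Lam * k := by
  have hE1 : (n : ℝ) * E p (fun x => if G x ∧ f x = true then (1 : ℝ) else 0) ≤ 8 * Lam * k := by
    have h2 : (n : ℝ) * p * E p (fun x => if G x ∧ f x = true then (1 : ℝ) else 0) ≤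
        8 * Lam * (p * k) := by
      calc (n : ℝ) * p * E p (fun x => if G x ∧ f x = true then (1 : ℝ) else 0)
          = E p (fun x => (n : ℝ) * p * (if G x ∧ f x = true then (1 : ℝ) else 0)) :=
            (E_smul _ _ _).symm
        _ ≤ E p (fun x => 8 * Lam * (((Q x).filter (fun i => x i = true)).card : ℝ)) := by
            refine E_mono hp0.le hp1.le fun x => ?_
            split_ifs with h
            · rw [mul_one]
              exact hside1 x h.1 h.2
            · rw [mul_zero]
              positivity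
        _ = 8 * Lam * E p (fun x => (((Q x).filter (fun i => x i = true)).card : ℝ)) :=
            E_smul _ _ _
        _ ≤ 8 * Lam * (p * k) :=
            mul_le_mul_of_nonneg_left (E_ones hp0.le hp1.le Q hQ1 hQ2) (by positivity)
    have h3 : p * ((n : ℝ) * E p (fun x => if G x ∧ f x = true then (1 : ℝ) else 0)) ≤
        p * (8 * Lam * k) := by linarith
    exact le_of_mul_le_mul_left h3 hp0
  have hE0 : (n : ℝ) * E p (fun x => if G x ∧ f x = false then (1 : ℝ) else 0) ≤ 8 * Lam * k := by
    have h2 : (n : ℝ) * (1 - p) * E p (fun x => if G x ∧ f x = false then (1 : ℝ) else 0) ≤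
        8 * Lam * ((1 - p) * k) := by
      calc (n : ℝ) * (1 - p) * E p (fun x => if G x ∧ f x = false then (1 : ℝ) else 0)
          = E p (fun x => (n : ℝ) * (1 - p) * (if G x ∧ f x = false then (1 : ℝ) else 0)) :=
            (E_smul _ _ _).symm
        _ ≤ E p (fun x => 8 * Lam * (((Q x).filter (fun i => ng x i = true)).card : ℝ)) := by
            refine E_mono hp0.le hp1.le fun x => ?_
            split_ifs with h
            · rw [mul_one]
              exact hside0 x h.1 h.2
            · rw [mul_zero]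
              positivity
        _ = 8 * Lam * E p (fun x => (((Q x).filter (fun i => ng x i = true)).card : ℝ)) :=
            E_smul _ _ _
        _ ≤ 8 * Lam * ((1 - p) * k) :=
            mul_le_mul_of_nonneg_left (E_zeros hp0.le hp1.le Q hQ1 hQ2) (by positivity)
    have h3 : (1 - p) * ((n : ℝ) * E p (fun x => if G x ∧ f x = false then (1 : ℝ) else 0)) ≤
        (1 - p) * (8 * Lam * k) := by linarith
    exact le_of_mul_le_mul_left h3 (by linarith)
  have hsum : E p (fun x => if G x then (1 : ℝ) else 0) =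
      E p (fun x => if G x ∧ f x = true then (1 : ℝ) else 0) +
      E p (fun x => if G x ∧ f x = false then (1 : ℝ) else 0) := by
    rw [← E_add]
    congr 1
    funext x
    by_cases hg : G x
    · cases h : f x <;> simp [hg]
    · simp [hg]
  have h5 : (3 : ℝ) / 4 * n ≤ 16 * Lam * k := by
    calc (3 : ℝ) / 4 * n ≤ E p (fun x => if G x then (1 : ℝ) else 0) * n :=
          mul_le_mul_of_nonneg_right hprob (Nat.cast_nonneg n)
      _ = (n : ℝ) * E p (fun x => if G x ∧ f x = true then (1 : ℝ) else 0) +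
          (n : ℝ) * E p (fun x => if G x ∧ f x = false then (1 : ℝ) else 0) := by
          rw [hsum]
          ring
      _ ≤ 8 * Lam * k + 8 * Lam * k := add_le_add hE1 hE0
      _ = 16 * Lam * k := by ring
  linarith

/-- Lower bound for the depth of decision trees for transitive functions
`Φ (LTF (φ (LTF)))` with `Φ`, `φ` monotone functions of `K` and `L` bits. -/
theorem main (f : (Fin n → Bool) → Bool) (hnc : ∃ x y, f x ≠ f y)
    (htr : ∀ i j : Fin n, ∃ σ : Equiv.Perm (Fin n), σ i = j ∧ ∀ x : Fin n → Bool, f (x ∘ σ) = f x)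
    {K M L : ℕ} (hK : 0 < K) (hM : 0 < M) (hL : 0 < L)
    (b : Fin K → Fin M → Fin L → (Fin n → Bool) → Bool)
    (hb : ∀ i j l, ∃ (u : Fin n → ℝ) (t : ℝ), (∀ v, 0 ≤ u v) ∧ b i j l = tg u t)
    (φ : Fin K → Fin M → (Fin L → Bool) → Bool)
    (w : Fin K → Fin M → ℝ) (θ : Fin K → ℝ) (Phi : (Fin K → Bool) → Bool)
    (hφ : ∀ i j, Mo (φ i j)) (hw : ∀ i j, 0 ≤ w i j) (hPhi : Mo Phi)
    (hf : ∀ x, f x = Phi (fun i => decide (θ i ≤
      tot (fun i j x => φ i j (fun l => b i j l x)) w i x)))
    (k : ℕ) (hk : Tree k f) :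
    3 * (n : ℝ) ≤ 64 * (K * L * (1 + Real.log (16 * K * M * L))) * k := by
  classical
  obtain ⟨Q, hQ1, hQ2, hQ3⟩ := hk
  -- monotonicity
  have hbm : ∀ i j l (x y : Fin n → Bool), (∀ v, x v = true → y v = true) → b i j l x = true →
      b i j l y = true := by
    intro i j l x y hxy hx
    obtain ⟨u, t, hu, e⟩ := hb i j l
    rw [e] at hx ⊢
    exact tg_mono hu t hxy hx
  obtain ⟨h, hh⟩ : ∃ h : Fin K → Fin M → (Fin n → Bool) → Bool,
      h = fun i j x => φ i j (fun l => b i j l x) := ⟨_, rfl⟩
  have hhx : ∀ i j x, h i j x = φ i j (fun l => b i j l x) := fun i j x => by rw [hh]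
  have hhf : ∀ i j, (fun x => φ i j (fun l => b i j l x)) = h i j := fun i j => by rw [hh]
  rw [← hh] at hf
  have hhm : ∀ i j (x y : Fin n → Bool), (∀ v, x v = true → y v = true) → h i j x = true →
      h i j y = true := by
    intro i j x y hxy hx
    rw [hhx] at hx ⊢
    exact hφ i j _ _ (fun l hl => hbm i j l x y hxy hl) hx
  have htm : ∀ i (x y : Fin n → Bool), (∀ v, x v = true → y v = true) →
      tot h w i x ≤ tot h w i y := by
    intro i x y hxy
    refine sum_le_sum fun j _ => ?_
    by_cases hx : h i j x = true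
    · rw [if_pos hx, if_pos (hhm i j x y hxy hx)]
    · rw [if_neg hx]
      split_ifs
      exacts [hw i j, le_rfl]
  have hfm : ∀ (x y : Fin n → Bool), (∀ v, x v = true → y v = true) → f x = true → f y = true := by
    intro x y hxy hx
    rw [hf] at hx ⊢
    refine hPhi _ _ (fun i hi => ?_) hx
    rw [decide_eq_true_eq] at hi ⊢
    exact hi.trans (htm i x y hxy)
  obtain ⟨x1, x2, hx⟩ := hnc
  have ftop : f (fun _ => true) = true := by
    by_contra hcon
    have : ∀ x, f x = false := by
      intro x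
      by_contra h2
      exact hcon (hfm x _ (fun _ _ => rfl) (by simpa using h2))
    exact hx (by rw [this, this])
  have fbot : f (fun _ => false) = false := by
    by_contra hcon
    have : ∀ x, f x = true := by
      intro x
      exact hfm (fun _ => false) x (fun v hv => absurd hv (by decide)) (by simpa using hcon)
    exact hx (by rw [this, this])
  have hn : 0 < n := by
    rcases Nat.eq_zero_or_pos n with h | h
    · subst h
      exact absurd (congrArg f (Subsingleton.elim x1 x2)) hx
    · exact h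
  have hK' : (1 : ℝ) ≤ K := by exact_mod_cast hK
  have hM' : (1 : ℝ) ≤ M := by exact_mod_cast hM
  have hL' : (1 : ℝ) ≤ L := by exact_mod_cast hL
  have hKM : (1 : ℝ) ≤ K * M := one_le_mul_of_one_le_of_one_le hK' hM'
  have hKML : (1 : ℝ) ≤ K * M * L := one_le_mul_of_one_le_of_one_le hKM hL'
  obtain ⟨δ, hδ⟩ : ∃ δ : ℝ, δ = 1 / (16 * (K * M)) := ⟨_, rfl⟩
  obtain ⟨δ', hδ'⟩ : ∃ δ' : ℝ, δ' = 1 / (16 * (K * M * L)) := ⟨_, rfl⟩
  have hδ0 : 0 < δ := by rw [hδ]; positivity
  have hδ'0 : 0 < δ' := by rw [hδ']; positivity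
  have hδ1 : δ < 1 / 2 := by
    rw [hδ, div_lt_div_iff₀ (by positivity) (by norm_num)]
    linarith
  have hδ'1 : δ' < 1 / 2 := by
    rw [hδ', div_lt_div_iff₀ (by positivity) (by norm_num)]
    linarith
  have hLδ : L * δ' ≤ δ := by
    rw [hδ, hδ']
    apply le_of_eq
    field_simp
  obtain ⟨lam, hlam⟩ : ∃ lam : ℝ, lam = 1 + Real.log (1 / δ') := ⟨_, rfl⟩
  have hlam' : lam = 1 + Real.log (16 * K * M * L) := by
    rw [hlam, hδ', one_div_one_div]
    congr 2
    ring
  have hlam0 : 0 < lam := by
    rw [hlam, hδ', one_div_one_div]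
    have := Real.log_nonneg (show (1 : ℝ) ≤ 16 * (K * M * L) by linarith)
    linarith
  -- the density
  obtain ⟨p, hp0, hp1, hA, hB⟩ := density h w hw θ Phi hPhi hδ0 hδ1
    (by rw [← hf]; exact fbot) (by rw [← hf]; exact ftop)
  -- good permutations
  obtain ⟨B, hB1, hB2⟩ : ∃ B : (Fin K × Fin M) ⊕ (Fin K × Fin M × Fin L) → (Fin n → Bool) → Bool,
      (∀ i j, B (Sum.inl (i, j)) = h i j) ∧ (∀ i j l, B (Sum.inr (i, j, l)) = b i j l) :=
    ⟨Sum.elim (fun c => h c.1 c.2) (fun c => b c.1 c.2.1 c.2.2), fun _ _ => rfl, fun _ _ _ => rfl⟩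
  obtain ⟨d, hd1, hd2⟩ : ∃ d : (Fin K × Fin M) ⊕ (Fin K × Fin M × Fin L) → ℝ,
      (∀ c, d (Sum.inl c) = δ) ∧ (∀ c, d (Sum.inr c) = δ') :=
    ⟨Sum.elim (fun _ => δ) (fun _ => δ'), fun _ => rfl, fun _ => rfl⟩
  have hds : ∑ c, d c ≤ 1 / 8 := by
    rw [Fintype.sum_sum_type]
    simp only [hd1, hd2, sum_const, card_univ, Fintype.card_prod, Fintype.card_fin, nsmul_eq_mul]
    push_cast
    rw [hδ, hδ']
    apply le_of_eq
    field_simp
    norm_num
  have hprob := good_prob B d (by rintro (c | c); exacts [(hd1 c).symm ▸ hδ0.le,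
      (hd2 c).symm ▸ hδ'0.le])
    (by rintro (c | c); exacts [(hd1 c).symm ▸ hδ1, (hd2 c).symm ▸ hδ'1]) hds f hp0 hp1
  -- the two kinds of certificates
  obtain ⟨lo, hlo⟩ : ∃ lo : (Fin n → Bool) → Fin n → Bool,
      ∀ x i, lo x i = (decide (i ∈ Q x) && x i) := ⟨_, fun _ _ => rfl⟩
  obtain ⟨hi', hhi⟩ : ∃ hb : (Fin n → Bool) → Fin n → Bool,
      ∀ x i, hb x i = (decide (i ∈ Q x) && ng x i) := ⟨_, fun _ _ => rfl⟩
  have hlo_le : ∀ x i, lo x i = true → x i = true := by
    intro x i hi
    rw [hlo, Bool.and_eq_true] at hi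
    exact hi.2
  have hhi_ge : ∀ x i, x i = true → ng (hi' x) i = true := by
    intro x i hi
    simp [hhi, ng, hi]
  have hflo : ∀ x, f (lo x) = f x := by
    intro x
    refine hQ3 x (lo x) fun i hi => ?_
    simp [hlo, hi]
  have hfhi : ∀ x, f (ng (hi' x)) = f x := by
    intro x
    refine hQ3 x _ fun i hi => ?_
    simp [hhi, ng, hi]
  have hcard1 : ∀ x, univ.filter (fun j => lo x j = true) =
      (Q x).filter (fun i => x i = true) := by
    intro x
    ext i
    simp [hlo]
  have hcard2 : ∀ x, univ.filter (fun j => hi' x j = true) =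
      (Q x).filter (fun i => ng x i = true) := by
    intro x
    ext i
    simp [hhi]
  -- side one
  have hside1 : ∀ x, (sym f).card ≤ 2 * (good B d f p x).card → f x = true →
      (n : ℝ) * p ≤ 8 * (K * L * lam) * (((Q x).filter (fun i => x i = true)).card : ℝ) := by
    intro x hGx hfx
    rw [← hcard1 x]
    refine side f htr b φ hφ w hw hp0 hp1 hδ0 hδ1 hδ'0 hLδ hlam0.le hn
      (fun i j l => ?_) (lo x) (good B d f p x)
      (good_subset B d f p x) hGx ?_ ?_ ?_
    · obtain ⟨u, t, hu, e⟩ := hb i j l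
      rw [e, hlam]
      exact dom1 hu t hp0 hp1 hδ'0
    · intro σ hσ i j hP
      rw [hhf] at hP
      have h2 := (mem_good hσ (Sum.inl (i, j))).1 (by rw [hB1, hd1]; exact hP)
      rw [hB1] at h2
      rw [← hhx]
      by_contra h3
      have h4 : h i j (lo x ∘ σ) = true := by simpa using h3
      have h5 := hhm i j (lo x ∘ σ) (x ∘ σ) (fun v hv => hlo_le x (σ v) hv) h4
      rw [h2] at h5
      exact absurd h5 (by decide)
    · intro σ hσ i j l hP
      have h2 := (mem_good hσ (Sum.inr (i, j, l))).1 (by rw [hB2, hd2]; exact hP)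
      rw [hB2] at h2
      by_contra h3
      have h4 : b i j l (lo x ∘ σ) = true := by simpa using h3
      have h5 := hbm i j l (lo x ∘ σ) (x ∘ σ) (fun v hv => hlo_le x (σ v) hv) h4
      rw [h2] at h5
      exact absurd h5 (by decide)
    · intro σ hσ
      have h3 : f (lo x ∘ σ) = true := by
        rw [(mem_sym f σ).1 (good_subset B d f p x hσ), hflo, hfx]
      by_contra hcon
      push Not at hcon
      rw [hf] at h3
      have h4 := hPhi _ (fun i => decide (2 * θ i ≤
          (∑ j, if 1 - P1 (h i j) p < δ then w i j else 0) +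
          ∑ j, if δ < P1 (h i j) p then w i j else 0)) (fun i hi => ?_) h3
      · rw [hA] at h4
        exact absurd h4 (by decide)
      · rw [decide_eq_true_eq] at hi ⊢
        have h5 := hcon i
        simp only [hhf] at h5
        have h6 : tot h w i (lo x ∘ σ) =
            ∑ j, if φ i j (fun l => b i j l (lo x ∘ σ)) = true then w i j else 0 := by
          unfold tot
          simp only [hhx]
        rw [← h6] at h5
        linarith
  -- side zero
  have hside0 : ∀ x, (sym f).card ≤ 2 * (good B d f p x).card → f x = false →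
      (n : ℝ) * (1 - p) ≤
        8 * (K * L * lam) * (((Q x).filter (fun i => ng x i = true)).card : ℝ) := by
    intro x hGx hfx
    rw [← hcard2 x]
    have hdd : ∀ i j z, (!φ i j (fun l => !(!b i j l (ng z)))) = !h i j (ng z) := by
      intro i j z
      rw [hhx]
      simp only [Bool.not_not]
    have hdf : ∀ i j, (fun z => !φ i j (fun l => !(!b i j l (ng z)))) =
        fun z => !h i j (ng z) := fun i j => funext fun z => hdd i j z
    refine side f htr (fun i j l z => !b i j l (ng z))
      (fun i j a => !φ i j (fun l => !a l)) (fun i j => (hφ i j).dual) w hw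
      (by linarith) (by linarith) hδ0 hδ1 hδ'0 hLδ hlam0.le hn
      (fun i j l => ?_) (hi' x) (good B d f p x)
      (good_subset B d f p x) hGx ?_ ?_ ?_
    · obtain ⟨u, t, hu, e⟩ := hb i j l
      rw [e, hlam]
      exact dom0 hu t hp0 hp1 hδ'0
    · intro σ hσ i j hP
      have hP' : P1 (fun z => !h i j (ng z)) (1 - p) ≤ δ := by
        rw [← hdf i j]
        exact hP
      rw [P1_dual] at hP'
      have h2 := (mem_good hσ (Sum.inl (i, j))).2 (by rw [hB1, hd1]; exact hP')
      rw [hB1] at h2
      have h5 := hhm i j (x ∘ σ) (ng (hi' x ∘ σ)) (fun v hv => hhi_ge x (σ v) hv) h2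
      show (!φ i j (fun l => !(!b i j l (ng (hi' x ∘ σ))))) = false
      rw [hdd, h5]
      rfl
    · intro σ hσ i j l hP
      have hP' : 1 - P1 (b i j l) p ≤ δ' := by
        rw [← P1_dual]
        exact hP
      have h2 := (mem_good hσ (Sum.inr (i, j, l))).2 (by rw [hB2, hd2]; exact hP')
      rw [hB2] at h2
      have h5 := hbm i j l (x ∘ σ) (ng (hi' x ∘ σ)) (fun v hv => hhi_ge x (σ v) hv) h2
      show (!b i j l (ng (hi' x ∘ σ))) = false
      rw [h5]
      rfl
    · intro σ hσ
      have h3 : f (ng (hi' x) ∘ σ) = false := by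
        rw [(mem_sym f σ).1 (good_subset B d f p x hσ), hfhi, hfx]
      have h3' : f (ng (hi' x ∘ σ)) = false := h3
      by_contra hcon
      push Not at hcon
      rw [hf] at h3'
      have h4 := hPhi _ (fun i => decide (θ i ≤ tot h w i (ng (hi' x ∘ σ)))) (fun i hi => ?_) hB
      · rw [h3'] at h4
        exact absurd h4 (by decide)
      · rw [decide_eq_true_eq] at hi ⊢
        have h5 := hcon i
        have e0 : (∑ j, if (!φ i j (fun l => !(!b i j l (ng (hi' x ∘ σ))))) = true
            then w i j else 0) = (∑ j, w i j) - tot h w i (ng (hi' x ∘ σ)) := by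
          unfold tot
          rw [← sum_sub_distrib]
          refine sum_congr rfl fun j _ => ?_
          rw [hdd]
          cases h7 : h i j (ng (hi' x ∘ σ)) <;> simp
        have e1 : (∑ j, if 1 - P1 (fun z => (!φ i j (fun l => !(!b i j l (ng z))))) (1 - p) < δ
            then w i j else 0) = (∑ j, w i j) - ∑ j, if δ ≤ P1 (h i j) p then w i j else 0 := by
          rw [← sum_sub_distrib]
          refine sum_congr rfl fun j _ => ?_
          rw [hdf, P1_dual, sub_sub_cancel]
          by_cases h7 : P1 (h i j) p < δ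
          · rw [if_pos h7, if_neg (not_le.2 h7), sub_zero]
          · rw [if_neg h7, if_pos (not_lt.1 h7), sub_self]
        have e2 : (∑ j, if δ < P1 (fun z => (!φ i j (fun l => !(!b i j l (ng z))))) (1 - p)
            then w i j else 0) = (∑ j, w i j) - ∑ j, if 1 - P1 (h i j) p ≤ δ then w i j else 0 := by
          rw [← sum_sub_distrib]
          refine sum_congr rfl fun j _ => ?_
          rw [hdf, P1_dual]
          by_cases h7 : 1 - P1 (h i j) p ≤ δ
          · rw [if_pos h7, if_neg (not_lt.2 h7), sub_self]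
          · rw [if_neg h7, if_pos (not_le.1 h7), sub_zero]
        rw [e0, e1, e2] at h5
        linarith
  rw [← hlam']
  exact finish f Q k hQ1 hQ2 hp0 hp1 (by positivity) _ hprob hside1 hside0

end Pool.Agent.TH669.TC
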